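import Pool.Agent.Q210.UM8.BlsKer

set_option autoImplicit false

/-!
Project UM8 (helper97): job BLS, part 2: integrals.
-/

namespace Pool.Agent.Q210.UM8

open Filter Topology MeasureTheory Complex

noncomputable section

/-- the mass of `(1 + |y|)^{-2}` -/
def C4 : ℝ := ∫ y : ℝ, 1 / (1 + |y|) ^ 2

theorem int_C4 : Integrable (fun y : ℝ => 1 / (1 + |y|) ^ 2) := by
  have h := integrable_one_add_norm (E := ℝ) (μ := volume) (r := 2) (by simp)
  refine h.congr (Eventually.of_forall fun y => ?_)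
  simp only [Real.norm_eq_abs]
  have h1 : (0 : ℝ) ≤ 1 + |y| := by positivity
  rw [Real.rpow_neg h1, one_div]
  congr 1
  exact_mod_cast Real.rpow_natCast (1 + |y|) 2

theorem C4_nonneg : 0 ≤ C4 := integral_nonneg fun y => by positivity

theorem sum_int {k : ℝ → ℂ} (hki : Integrable k) {C₃ : ℝ} (hC₃ : 0 ≤ C₃)
    (hk3 : ∀ x, ‖k x‖ ≤ C₃ / (1 + |x|) ^ 20) {ι : Type} (Z : Finset ι) (x n : ι → ℝ)
    {L T G C₂ : ℝ} (hL : 1 ≤ L) (hT : 0 < T) (hn0 : ∀ i ∈ Z, 0 ≤ (n i)⁻¹)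
    (hw : ∀ v : ℝ, ∑ i ∈ Z, (n i)⁻¹ * (1 / (1 + L * |v - x i|) ^ 2) ≤ C₂)
    (hx : ∀ i ∈ Z, T ≤ x i ∧ x i ≤ 2 * T) {g : ℝ → ℂ} (hg : Continuous g)
    (hG : ∀ v, ‖g v‖ ^ 2 ≤ G) :
    ∑ i ∈ Z, (n i)⁻¹ * ∫ v : ℝ, ‖k (L * (x i - v))‖ * ‖g v‖ ^ 2 ≤
      C₃ * C₂ * (∫ v in Set.Ioc (T / 2) (3 * T), ‖g v‖ ^ 2) +
        (∑ i ∈ Z, (n i)⁻¹) * (C₃ * C4 * ((T / 2) ^ 18)⁻¹ * G) := by
  have hL0 : 0 < L := by linarith
  have hG0 : 0 ≤ G := (sq_nonneg _).trans (hG 0)
  have hKi : ∀ t : ℝ, Integrable (fun v : ℝ => ‖k (L * (t - v))‖ * ‖g v‖ ^ 2) := by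
    intro t
    have h1 : Integrable (fun v : ℝ => ‖k (L * (t - v))‖) :=
      ((hki.comp_mul_left' hL0.ne').comp_sub_left t).norm
    refine (h1.bdd_mul (c := G) (f := fun v => ‖g v‖ ^ 2) (by fun_prop) ?_).congr ?_
    · refine Eventually.of_forall fun v => ?_
      rw [Real.norm_eq_abs, abs_of_nonneg (sq_nonneg _)]
      exact hG v
    · exact Eventually.of_forall fun v => mul_comm _ _
  obtain ⟨A, hA⟩ : ∃ A : Set ℝ, A = Set.Ioc (T / 2) (3 * T) := ⟨_, rfl⟩
  have hAm : MeasurableSet A := by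
    rw [hA]
    exact measurableSet_Ioc
  rw [← hA]
  have hsplit : ∀ i ∈ Z, (n i)⁻¹ * ∫ v : ℝ, ‖k (L * (x i - v))‖ * ‖g v‖ ^ 2 ≤
      (∫ v in A, (n i)⁻¹ * (‖k (L * (x i - v))‖ * ‖g v‖ ^ 2)) +
        (n i)⁻¹ * (C₃ * C4 * ((T / 2) ^ 18)⁻¹ * G) := by
    intro i hi
    rw [← integral_add_compl hAm (hKi (x i)), mul_add, integral_const_mul]
    refine add_le_add le_rfl (mul_le_mul_of_nonneg_left ?_ (hn0 i hi))
    have h1 : ∀ v ∈ Aᶜ, ‖k (L * (x i - v))‖ * ‖g v‖ ^ 2 ≤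
        (C₃ * ((T / 2) ^ 18)⁻¹ * G) * (1 / (1 + |x i - v|) ^ 2) := by
      intro v hv
      have h2 : T / 2 ≤ |x i - v| := by
        rw [hA, Set.mem_compl_iff, Set.mem_Ioc, not_and_or, not_lt, not_le] at hv
        obtain ⟨h3, h4⟩ := hx i hi
        rcases hv with hv | hv
        · rw [abs_of_nonneg (by linarith)]
          linarith
        · rw [abs_of_nonpos (by linarith)]
          linarith
      have h5 : ‖k (L * (x i - v))‖ ≤ C₃ * (((T / 2) ^ 18)⁻¹ * (1 / (1 + |x i - v|) ^ 2)) := by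
        refine (hk3 _).trans ?_
        rw [div_eq_mul_inv]
        apply mul_le_mul_of_nonneg_left _ hC₃
        rw [one_div, ← mul_inv]
        have h6 : |x i - v| ≤ |L * (x i - v)| := by
          rw [abs_mul, abs_of_pos hL0]
          nlinarith [abs_nonneg (x i - v)]
        apply inv_anti₀ (by positivity)
        calc (T / 2) ^ 18 * (1 + |x i - v|) ^ 2 ≤ (1 + |x i - v|) ^ 18 * (1 + |x i - v|) ^ 2 := by
              apply mul_le_mul_of_nonneg_right _ (by positivity)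
              exact pow_le_pow_left₀ (by positivity) (by linarith) 18
          _ = (1 + |x i - v|) ^ 20 := by ring
          _ ≤ (1 + |L * (x i - v)|) ^ 20 := pow_le_pow_left₀ (by positivity) (by linarith) 20
      calc ‖k (L * (x i - v))‖ * ‖g v‖ ^ 2 ≤
            (C₃ * (((T / 2) ^ 18)⁻¹ * (1 / (1 + |x i - v|) ^ 2))) * G :=
            mul_le_mul h5 (hG v) (sq_nonneg _) (by positivity)
        _ = _ := by ring
    have h2 : Integrable (fun v : ℝ => (C₃ * ((T / 2) ^ 18)⁻¹ * G) * (1 / (1 + |x i - v|) ^ 2)) :=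
      (int_C4.comp_sub_left (x i)).const_mul _
    calc ∫ v in Aᶜ, ‖k (L * (x i - v))‖ * ‖g v‖ ^ 2 ≤
          ∫ v in Aᶜ, (C₃ * ((T / 2) ^ 18)⁻¹ * G) * (1 / (1 + |x i - v|) ^ 2) :=
          setIntegral_mono_on (hKi (x i)).integrableOn h2.integrableOn hAm.compl h1
      _ ≤ ∫ v : ℝ, (C₃ * ((T / 2) ^ 18)⁻¹ * G) * (1 / (1 + |x i - v|) ^ 2) := by
          apply setIntegral_le_integral h2
          exact Eventually.of_forall fun v => by
            simp only [Pi.zero_apply]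
            positivity
      _ = _ := by
          rw [integral_const_mul,
            integral_sub_left_eq_self (fun y : ℝ => 1 / (1 + |y|) ^ 2) volume (x i)]
          unfold C4
          ring
  refine (Finset.sum_le_sum hsplit).trans ?_
  rw [Finset.sum_add_distrib, ← Finset.sum_mul]
  refine add_le_add ?_ le_rfl
  rw [← integral_finsetSum]
  · have hi2 : IntegrableOn (fun v => C₃ * C₂ * ‖g v‖ ^ 2) A := by
      rw [hA]
      exact (by fun_prop : Continuous fun v => C₃ * C₂ * ‖g v‖ ^ 2).integrableOn_Icc.mono_set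
        Set.Ioc_subset_Icc_self
    rw [← integral_const_mul]
    apply setIntegral_mono_on _ hi2 hAm
    · intro v _
      have h1 : ∑ i ∈ Z, (n i)⁻¹ * (‖k (L * (x i - v))‖ * ‖g v‖ ^ 2) =
          (∑ i ∈ Z, (n i)⁻¹ * ‖k (L * (x i - v))‖) * ‖g v‖ ^ 2 := by
        rw [Finset.sum_mul]
        exact Finset.sum_congr rfl fun i _ => by ring
      rw [h1]
      apply mul_le_mul_of_nonneg_right _ (sq_nonneg _)
      calc ∑ i ∈ Z, (n i)⁻¹ * ‖k (L * (x i - v))‖ ≤
            ∑ i ∈ Z, C₃ * ((n i)⁻¹ * (1 / (1 + L * |v - x i|) ^ 2)) := by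
            refine Finset.sum_le_sum fun i hi => ?_
            have h2 : ‖k (L * (x i - v))‖ ≤ C₃ * (1 / (1 + L * |v - x i|) ^ 2) := by
              refine (hk3 _).trans ?_
              rw [abs_mul, abs_of_pos hL0, abs_sub_comm, div_eq_mul_inv, one_div]
              apply mul_le_mul_of_nonneg_left _ hC₃
              apply inv_anti₀ (by positivity)
              apply pow_le_pow_right₀ _ (by norm_num)
              have : 0 ≤ L * |v - x i| := by positivity
              linarith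
            calc (n i)⁻¹ * ‖k (L * (x i - v))‖ ≤ (n i)⁻¹ * (C₃ * (1 / (1 + L * |v - x i|) ^ 2)) :=
                  mul_le_mul_of_nonneg_left h2 (hn0 i hi)
              _ = _ := by ring
        _ = C₃ * ∑ i ∈ Z, (n i)⁻¹ * (1 / (1 + L * |v - x i|) ^ 2) := by rw [Finset.mul_sum]
        _ ≤ C₃ * C₂ := mul_le_mul_of_nonneg_left (hw v) hC₃
    · exact integrable_finsetSum _ fun i _ => ((hKi (x i)).const_mul _).integrableOn
  · intro i _
    exact ((hKi (x i)).const_mul _).integrableOn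

end

end Pool.Agent.Q210.UM8
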