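import Pool.Agent.Q97.UM.Stm15
import Pool.Agent.Q210.UM8.BlsInt

set_option autoImplicit false

/-!
Project UM8 (helper97): job BLS, the second moment of zeta prime at the critical zeros against the continuous moment.
-/

namespace Pool.Agent.Q210.UM8

open Filter Topology MeasureTheory Complex
open Pool.Agent.Q97.UM

noncomputable section

/-- trivial bound for a Dirichlet polynomial -/
theorem triv (M : ℕ) (c b : ℕ → ℂ) (l : ℝ) (h : ∀ n ∈ Finset.Icc 1 M, ‖b n‖ ≤ l * ‖c n‖)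
    (t : ℝ) : ‖∑ n ∈ Finset.Icc 1 M, b n * (n : ℂ) ^ (-(1 / 2 + t * I))‖ ^ 2 ≤
      l ^ 2 * (M * N2 M c) := by
  have h1 : ‖∑ n ∈ Finset.Icc 1 M, b n * (n : ℂ) ^ (-(1 / 2 + t * I))‖ ≤
      l * ∑ n ∈ Finset.Icc 1 M, 1 * (‖c n‖ / Real.sqrt n) := by
    rw [Finset.mul_sum]
    refine (norm_sum_le _ _).trans (Finset.sum_le_sum fun n hn => ?_)
    have hn1 : 0 < n := (Finset.mem_Icc.1 hn).1
    rw [norm_mul, Complex.norm_natCast_cpow_of_pos hn1]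
    have h2 : (-(1 / 2 + t * I) : ℂ).re = -(1 / 2) := by simp
    rw [h2, Real.rpow_neg (Nat.cast_nonneg _), ← Real.sqrt_eq_rpow, one_mul, ← mul_div_assoc,
      div_eq_mul_inv]
    exact mul_le_mul_of_nonneg_right (h n hn) (by positivity)
  have h3 := Finset.sum_mul_sq_le_sq_mul_sq (Finset.Icc 1 M) (fun _ => (1 : ℝ))
    (fun n => ‖c n‖ / Real.sqrt n)
  have h4 : ∑ n ∈ Finset.Icc 1 M, (‖c n‖ / Real.sqrt n) ^ 2 = N2 M c := by
    unfold N2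
    refine Finset.sum_congr rfl fun n _ => ?_
    rw [div_pow, Real.sq_sqrt (Nat.cast_nonneg _)]
  rw [h4] at h3
  simp only [one_pow, Finset.sum_const, Nat.card_Icc, Nat.add_sub_cancel, nsmul_eq_mul,
    mul_one] at h3
  calc ‖∑ n ∈ Finset.Icc 1 M, b n * (n : ℂ) ^ (-(1 / 2 + t * I))‖ ^ 2 ≤
        (l * ∑ n ∈ Finset.Icc 1 M, 1 * (‖c n‖ / Real.sqrt n)) ^ 2 :=
        pow_le_pow_left₀ (norm_nonneg _) h1 2
    _ = l ^ 2 * (∑ n ∈ Finset.Icc 1 M, 1 * (‖c n‖ / Real.sqrt n)) ^ 2 := by rw [mul_pow]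
    _ ≤ l ^ 2 * (M * N2 M c) := mul_le_mul_of_nonneg_left h3 (by positivity)

/-- the complex exponential form -/
theorem cpow_exp {n : ℕ} (hn : 1 ≤ n) (t : ℝ) : (n : ℂ) ^ (-(1 / 2 + t * I)) =
    (((Real.sqrt n)⁻¹ : ℝ) : ℂ) * cexp (-(I * ((Real.log n : ℝ) * t))) := by
  have hn0 : (n : ℂ) ≠ 0 := by exact_mod_cast (by omega : n ≠ 0)
  have hn1 : (0 : ℝ) < n := by exact_mod_cast hn
  have h1 : (((Real.sqrt n)⁻¹ : ℝ) : ℂ) = cexp (((-(1 / 2) * Real.log n : ℝ) : ℂ)) := by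
    rw [← Complex.ofReal_exp]
    congr 1
    rw [Real.sqrt_eq_rpow, ← Real.rpow_neg hn1.le, Real.rpow_def_of_pos hn1]
    congr 1
    ring
  rw [Complex.cpow_def_of_ne_zero hn0, h1, ← Complex.exp_add, ← Complex.natCast_log]
  congr 1
  push_cast
  ring

/-- derivative of a Dirichlet polynomial -/
theorem dp_deriv (M : ℕ) (c : ℕ → ℂ) (t : ℝ) : HasDerivAt (fun v : ℝ => dp M c v)
    (∑ n ∈ Finset.Icc 1 M, (c n * (-(I * (Real.log n : ℝ)))) * (n : ℂ) ^ (-(1 / 2 + t * I))) t := by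
  have h1 : (fun v : ℝ => dp M c v) = fun v : ℝ => ∑ n ∈ Finset.Icc 1 M,
      c n * ((((Real.sqrt n)⁻¹ : ℝ) : ℂ) * cexp (-(I * ((Real.log n : ℝ) * v)))) := by
    funext v
    unfold dp
    refine Finset.sum_congr rfl fun n hn => ?_
    rw [cpow_exp (Finset.mem_Icc.1 hn).1]
  rw [h1]
  have h2 : ∑ n ∈ Finset.Icc 1 M, (c n * (-(I * (Real.log n : ℝ)))) * (n : ℂ) ^ (-(1 / 2 + t * I)) =
      ∑ n ∈ Finset.Icc 1 M, c n * ((((Real.sqrt n)⁻¹ : ℝ) : ℂ) *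
        (cexp (-(I * ((Real.log n : ℝ) * t))) * (-(I * (Real.log n : ℝ))))) := by
    refine Finset.sum_congr rfl fun n hn => ?_
    rw [cpow_exp (Finset.mem_Icc.1 hn).1]
    ring
  rw [h2]
  apply HasDerivAt.fun_sum
  intro n _
  have h3 : HasDerivAt (fun v : ℝ => (-(I * ((Real.log n : ℝ) * (v : ℂ))))) (-(I * (Real.log n : ℝ))) t := by
    have h4 := (hasDerivAt_id t).ofReal_comp
    have h5 := ((h4.const_mul ((Real.log n : ℝ) : ℂ)).const_mul I).neg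
    exact h5.congr_deriv (by simp)
  exact (h3.cexp.const_mul _).const_mul _

/-- the approximating polynomial -/
def zt' (K : ℕ) (ps : ℕ → ℝ) (s : ℂ) : ℂ := ∑ k ∈ Finset.Icc 1 K, ((ps k : ℝ) : ℂ) * (k : ℂ) ^ (-s)

theorem zt'_diff (K : ℕ) (ps : ℕ → ℝ) : Differentiable ℂ (zt' K ps) := by
  intro s
  unfold zt'
  apply DifferentiableAt.fun_sum
  intro k hk
  have hk0 : (k : ℂ) ≠ 0 := by
    have := (Finset.mem_Icc.1 hk).1
    exact_mod_cast (by omega : k ≠ 0)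
  exact (differentiableAt_const _).mul
    ((differentiableAt_id.neg).const_cpow (Or.inl hk0))

/-- frequencies -/
def fr (p : ℕ × ℕ) : ℝ := Real.log p.1 + Real.log p.2

/-- coefficients -/
def co (ps : ℕ → ℝ) (c : ℕ → ℂ) (p : ℕ × ℕ) : ℂ :=
  (((ps p.1 : ℝ) : ℂ) * (((Real.sqrt p.1)⁻¹ : ℝ) : ℂ)) * (c p.2 * (((Real.sqrt p.2)⁻¹ : ℝ) : ℂ))

theorem prod_eq (K M : ℕ) (ps : ℕ → ℝ) (c : ℕ → ℂ) (Y : ℝ)
    (hps : ∀ k ∈ Finset.Icc 1 K, ps k ≠ 0 → Real.log k ≤ Y) (t : ℝ) :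
    zt' K ps (1 / 2 + t * I) * dp M c t =
      ∑ p ∈ ((Finset.Icc 1 K).filter (fun k : ℕ => Real.log k ≤ Y)) ×ˢ Finset.Icc 1 M,
        co ps c p * cexp (-(I * (fr p * t))) := by
  have h1 : zt' K ps (1 / 2 + t * I) = ∑ k ∈ (Finset.Icc 1 K).filter (fun k : ℕ => Real.log k ≤ Y),
      ((ps k : ℝ) : ℂ) * (k : ℂ) ^ (-(1 / 2 + t * I)) := by
    unfold zt'
    rw [Finset.sum_filter_of_ne]
    intro k hk hne
    apply hps k hk
    intro h0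
    rw [h0] at hne
    simp at hne
  rw [h1]
  unfold dp
  rw [Finset.sum_mul_sum, Finset.sum_product]
  refine Finset.sum_congr rfl fun k hk => Finset.sum_congr rfl fun n hn => ?_
  have hk1 := (Finset.mem_Icc.1 (Finset.mem_filter.1 hk).1).1
  have hn1 := (Finset.mem_Icc.1 hn).1
  rw [cpow_exp hk1, cpow_exp hn1]
  have h2 : cexp (-(I * (fr (k, n) * t))) = cexp (-(I * ((Real.log k : ℝ) * t))) *
      cexp (-(I * ((Real.log n : ℝ) * t))) := by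
    rw [← Complex.exp_add]
    congr 1
    unfold fr
    push_cast
    ring
  rw [h2]
  unfold co
  ring

/-- the derivative in two ways -/
theorem deriv_eq (K M : ℕ) (ps : ℕ → ℝ) (c : ℕ → ℂ) (Y : ℝ)
    (hps : ∀ k ∈ Finset.Icc 1 K, ps k ≠ 0 → Real.log k ≤ Y) (t : ℝ) :
    ∑ p ∈ ((Finset.Icc 1 K).filter (fun k : ℕ => Real.log k ≤ Y)) ×ˢ Finset.Icc 1 M,
        co ps c p * (-(I * fr p)) * cexp (-(I * (fr p * t))) =
      deriv (zt' K ps) (1 / 2 + t * I) * I * dp M c t + zt' K ps (1 / 2 + t * I) *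
        ∑ n ∈ Finset.Icc 1 M, (c n * (-(I * (Real.log n : ℝ)))) * (n : ℂ) ^ (-(1 / 2 + t * I)) := by
  have h1 : HasDerivAt (fun v : ℝ => zt' K ps (1 / 2 + v * I) * dp M c v)
      (∑ p ∈ ((Finset.Icc 1 K).filter (fun k : ℕ => Real.log k ≤ Y)) ×ˢ Finset.Icc 1 M,
        co ps c p * (-(I * fr p)) * cexp (-(I * (fr p * t)))) t := by
    have e1 : (fun v : ℝ => zt' K ps (1 / 2 + v * I) * dp M c v) = fun v : ℝ =>
        ∑ p ∈ ((Finset.Icc 1 K).filter (fun k : ℕ => Real.log k ≤ Y)) ×ˢ Finset.Icc 1 M,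
          co ps c p * cexp (-(I * (fr p * v))) := by
      funext v
      exact prod_eq K M ps c Y hps v
    rw [e1]
    apply HasDerivAt.fun_sum
    intro p _
    have h3 : HasDerivAt (fun v : ℝ => (-(I * ((fr p : ℝ) * (v : ℂ))))) (-(I * (fr p : ℝ))) t := by
      have h4 := (hasDerivAt_id t).ofReal_comp
      have h5 := ((h4.const_mul ((fr p : ℝ) : ℂ)).const_mul I).neg
      exact h5.congr_deriv (by simp)
    refine (h3.cexp.const_mul (co ps c p)).congr_deriv ?_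
    ring
  have h2 : HasDerivAt (fun v : ℝ => zt' K ps (1 / 2 + v * I))
      (deriv (zt' K ps) (1 / 2 + t * I) * I) t := by
    have h3 : HasDerivAt (fun v : ℝ => (1 / 2 + v * I : ℂ)) I t := by
      have h4 := (((hasDerivAt_id t).ofReal_comp).mul_const I).const_add (1 / 2 : ℂ)
      exact h4.congr_deriv (by simp)
    exact HasDerivAt.comp t ((zt'_diff K ps) (1 / 2 + t * I)).hasDerivAt h3
  exact h1.unique (h2.mul (dp_deriv M c t))

/-- one zero -/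
theorem zero_bound (K M : ℕ) (ps : ℕ → ℝ) (c : ℕ → ℂ) (Y T L ε : ℝ) (hT : 16 ≤ T) (hL : 1 ≤ L)
    (hps : ∀ k ∈ Finset.Icc 1 K, ps k ≠ 0 → Real.log k ≤ Y)
    (hlog : ∀ n ∈ Finset.Icc 1 M, Real.log n ≤ L)
    (hz : ∀ s : ℂ, |s.re - 1 / 2| ≤ 1 / 4 → T / 4 ≤ s.im → s.im ≤ 4 * T →
      ‖riemannZeta s - zt' K ps s‖ ≤ ε)
    (s : ℂ) (hre : s.re = 1 / 2) (him : T ≤ s.im) (him2 : s.im ≤ 2 * T) (h0 : riemannZeta s = 0) :
    ‖deriv riemannZeta s‖ ^ 2 * ‖dp M c s.im‖ ^ 2 ≤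
      3 * ‖∑ p ∈ ((Finset.Icc 1 K).filter (fun k : ℕ => Real.log k ≤ Y)) ×ˢ Finset.Icc 1 M,
        co ps c p * (-(I * fr p)) * cexp (-(I * (fr p * s.im)))‖ ^ 2 +
      51 * ε ^ 2 * L ^ 2 * (M * N2 M c) := by
  obtain ⟨t, ht⟩ : ∃ t : ℝ, t = s.im := ⟨_, rfl⟩
  have hs : s = 1 / 2 + t * I := by
    rw [ht]
    apply Complex.ext
    · simp [hre]
    · simp
  have hε : 0 ≤ ε := (norm_nonneg _).trans (hz s (by rw [hre]; norm_num) (by linarith) (by linarith))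
  have hN : 0 ≤ (M : ℝ) * N2 M c := by
    unfold N2
    positivity
  -- the difference
  have hdiff : ∀ w ∈ Metric.closedBall s (1 / 4), DifferentiableAt ℂ riemannZeta w ∧
      ‖riemannZeta w - zt' K ps w‖ ≤ ε := by
    intro w hw
    rw [Metric.mem_closedBall, dist_eq_norm] at hw
    have h1 : |w.re - 1 / 2| ≤ 1 / 4 := by
      have := Complex.abs_re_le_norm (w - s)
      rw [Complex.sub_re, hre] at this
      linarith
    have h2 : |w.im - s.im| ≤ 1 / 4 := by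
      have := Complex.abs_im_le_norm (w - s)
      rw [Complex.sub_im] at this
      linarith
    obtain ⟨h3, h4⟩ := abs_le.1 h2
    refine ⟨differentiableAt_riemannZeta ?_, hz w h1 (by linarith) (by linarith)⟩
    intro h5
    rw [h5, Complex.one_im] at h3
    linarith
  have hE : ‖deriv riemannZeta s - deriv (zt' K ps) s‖ ≤ 4 * ε := by
    have h1 : DiffContOnCl ℂ (fun w => riemannZeta w - zt' K ps w) (Metric.ball s (1 / 4)) := by
      apply DifferentiableOn.diffContOnCl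
      intro w hw
      have hw' := Metric.closure_ball_subset_closedBall hw
      exact ((hdiff w hw').1.sub (zt'_diff K ps w)).differentiableWithinAt
    have h2 := Complex.norm_deriv_le_of_forall_mem_sphere_norm_le (by norm_num : (0 : ℝ) < 1 / 4) h1
      (fun w hw => (hdiff w (Metric.sphere_subset_closedBall hw)).2)
    have h3 : deriv (fun w => riemannZeta w - zt' K ps w) s =
        deriv riemannZeta s - deriv (zt' K ps) s :=
      deriv_fun_sub (hdiff s (Metric.mem_closedBall_self (by norm_num))).1 (zt'_diff K ps s)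
    rw [h3] at h2
    linarith
  have hz0 : ‖zt' K ps s‖ ≤ ε := by
    have := (hdiff s (Metric.mem_closedBall_self (by norm_num))).2
    rw [h0, zero_sub, norm_neg] at this
    exact this
  have hD := deriv_eq K M ps c Y hps t
  rw [← ht]
  obtain ⟨D, hDd⟩ : ∃ D : ℂ, D = ∑ p ∈ ((Finset.Icc 1 K).filter (fun k : ℕ => Real.log k ≤ Y)) ×ˢ
    Finset.Icc 1 M, co ps c p * (-(I * fr p)) * cexp (-(I * (fr p * t))) := ⟨_, rfl⟩
  obtain ⟨P, hP⟩ : ∃ P : ℂ, P = ∑ n ∈ Finset.Icc 1 M, (c n * (-(I * (Real.log n : ℝ)))) *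
    (n : ℂ) ^ (-(1 / 2 + t * I)) := ⟨_, rfl⟩
  rw [← hDd, ← hP, ← hs] at hD
  rw [← hDd]
  have hPb : ‖P‖ ^ 2 ≤ L ^ 2 * (M * N2 M c) := by
    rw [hP]
    apply triv M c (fun n => c n * (-(I * (Real.log n : ℝ)))) L
    intro n hn
    have hn1 : (1 : ℝ) ≤ n := by exact_mod_cast (Finset.mem_Icc.1 hn).1
    rw [norm_mul, norm_neg, norm_mul, Complex.norm_I, one_mul, Complex.norm_real, Real.norm_eq_abs,
      abs_of_nonneg (Real.log_nonneg hn1), mul_comm]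
    exact mul_le_mul_of_nonneg_right (hlog n hn) (norm_nonneg _)
  have hdb : ‖dp M c t‖ ^ 2 ≤ M * N2 M c := by
    have h1 := triv M c c 1 (fun n _ => by rw [one_mul]) t
    rw [one_pow, one_mul] at h1
    exact h1
  have h1 : deriv riemannZeta s * dp M c t * I =
      (deriv riemannZeta s - deriv (zt' K ps) s) * dp M c t * I + D - zt' K ps s * P := by
    rw [hD]
    ring
  have h2 : ‖deriv riemannZeta s‖ * ‖dp M c t‖ ≤ 4 * ε * ‖dp M c t‖ + ‖D‖ + ε * ‖P‖ := by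
    have h3 : ‖deriv riemannZeta s‖ * ‖dp M c t‖ = ‖deriv riemannZeta s * dp M c t * I‖ := by
      rw [norm_mul, norm_mul, Complex.norm_I, mul_one]
    rw [h3, h1]
    refine (norm_sub_le _ _).trans ?_
    refine add_le_add ((norm_add_le _ _).trans (add_le_add ?_ le_rfl)) ?_
    · rw [norm_mul, norm_mul, Complex.norm_I, mul_one]
      exact mul_le_mul_of_nonneg_right hE (norm_nonneg _)
    · rw [norm_mul]
      exact mul_le_mul_of_nonneg_right hz0 (norm_nonneg _)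
  have h3 : (‖deriv riemannZeta s‖ * ‖dp M c t‖) ^ 2 ≤
      (4 * ε * ‖dp M c t‖ + ‖D‖ + ε * ‖P‖) ^ 2 := pow_le_pow_left₀ (by positivity) h2 2
  have h4 : (4 * ε * ‖dp M c t‖ + ‖D‖ + ε * ‖P‖) ^ 2 ≤
      3 * ((4 * ε * ‖dp M c t‖) ^ 2 + ‖D‖ ^ 2 + (ε * ‖P‖) ^ 2) := by
    nlinarith [sq_nonneg (4 * ε * ‖dp M c t‖ - ‖D‖), sq_nonneg (‖D‖ - ε * ‖P‖),
      sq_nonneg (4 * ε * ‖dp M c t‖ - ε * ‖P‖)]
  have h5 : (4 * ε * ‖dp M c t‖) ^ 2 ≤ 16 * ε ^ 2 * L ^ 2 * (M * N2 M c) := by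
    have h6 : 1 ≤ L ^ 2 := one_le_pow₀ hL
    calc (4 * ε * ‖dp M c t‖) ^ 2 = 16 * ε ^ 2 * ‖dp M c t‖ ^ 2 := by ring
      _ ≤ 16 * ε ^ 2 * (M * N2 M c) := mul_le_mul_of_nonneg_left hdb (by positivity)
      _ ≤ 16 * ε ^ 2 * (L ^ 2 * (M * N2 M c)) := by
          apply mul_le_mul_of_nonneg_left _ (by positivity)
          nlinarith
      _ = _ := by ring
  have h6 : (ε * ‖P‖) ^ 2 ≤ ε ^ 2 * L ^ 2 * (M * N2 M c) := by
    calc (ε * ‖P‖) ^ 2 = ε ^ 2 * ‖P‖ ^ 2 := by ring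
      _ ≤ ε ^ 2 * (L ^ 2 * (M * N2 M c)) := mul_le_mul_of_nonneg_left hPb (by positivity)
      _ = _ := by ring
  rw [← mul_pow]
  calc (‖deriv riemannZeta s‖ * ‖dp M c t‖) ^ 2 ≤
        3 * ((4 * ε * ‖dp M c t‖) ^ 2 + ‖D‖ ^ 2 + (ε * ‖P‖) ^ 2) := h3.trans h4
    _ ≤ _ := by linarith

/-- the number of zeros is at least the number of critical zeros -/
theorem n2_ge (T : ℝ) (hT : 16 ≤ T) (Z : Finset ℂ)
    (hZ : ∀ s ∈ Z, s ∈ H370.zset riemannZeta T (2 * T)) (t : ℝ) :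
    ((Z.filter (fun s' => |s'.im - t| ≤ 2 / Real.log T)).card : ℝ) ≤ n2 T t := by
  classical
  unfold n2
  have h1 : ((Z.filter (fun s' => |s'.im - t| ≤ 2 / Real.log T)).card : ℝ) =
      ∑ s' ∈ Z.filter (fun s' => |s'.im - t| ≤ 2 / Real.log T), (1 : ℝ) := by
    simp
  rw [h1]
  have hsub : Z.filter (fun s' => |s'.im - t| ≤ 2 / Real.log T) ⊆
      (ZD T).filter (fun s => |s.im - t| ≤ 2 / Real.log T) := by
    intro s hs
    rw [Finset.mem_filter] at hs ⊢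
    refine ⟨?_, hs.2⟩
    unfold ZD
    rw [H370.mem_Zf H370.good_zeta (by linarith)]
    obtain ⟨a1, a2, a3, a4, a5⟩ := hZ s hs.1
    exact ⟨a1, a2, by linarith, by linarith, a5⟩
  calc ∑ s' ∈ Z.filter (fun s' => |s'.im - t| ≤ 2 / Real.log T), (1 : ℝ) ≤
        ∑ s' ∈ Z.filter (fun s' => |s'.im - t| ≤ 2 / Real.log T), (mz s' : ℝ) := by
        refine Finset.sum_le_sum fun s hs => ?_
        have h2 := hZ s (Finset.mem_filter.1 hs).1
        have h3 : 1 ≤ mz s := H370.Loc.mult_pos' H370.good_zeta (by linarith [h2.2.2.1]) h2.2.2.2.2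
        exact_mod_cast h3
    _ ≤ _ := Finset.sum_le_sum_of_subset_of_nonneg hsub fun s _ _ => Nat.cast_nonneg _

theorem main_bound {T C₀ C₂ C₃ A₁ : ℝ} (hT : 16 ≤ T) (hL : 1 ≤ Real.log T)
    (hC₂ : 0 < C₂) (hC₃ : 0 < C₃) (hA₁ : 0 ≤ A₁) {N F W S : ℝ} (hN : 0 ≤ N) (hF : 0 ≤ F)
    (hW0 : 0 ≤ W) (hW : W ≤ C₂ * (1 + Real.log T * T) ^ 2)
    {Q : ℝ} (hQ : Q ≤ T * N) {J G : ℝ}
    (hJ : J ≤ 2 * F + 5 * (C₀ / T ^ 3) ^ 2 * T * Q) (hG : G ≤ T ^ 5 * N)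
    (hS : S ≤ 3 * (A₁ * Real.log T ^ 3 * (C₃ * C₂ * J + W * (C₃ * C4 * ((T / 2) ^ 18)⁻¹ * G))) +
      W * (51 * (C₀ / T ^ 3) ^ 2 * Real.log T ^ 2 * Q)) :
    S ≤ (6 * A₁ * C₃ * C₂ + 15 * A₁ * C₃ * C₂ * C₀ ^ 2 + 3 * A₁ * C₂ * C₃ * C4 +
      204 * C₀ ^ 2 * C₂) * Real.log T ^ 3 * (F + N) := by
  have hT0 : 0 < T := by linarith
  have hLT : Real.log T ≤ T := (Real.log_le_sub_one_of_pos hT0).trans (by linarith)
  generalize Real.log T = L at *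
  have hL0 : 0 < L := by linarith
  have hC4 := C4_nonneg
  have hL3 : 0 < L ^ 3 := by positivity
  -- bound for W
  have hW2 : W ≤ 4 * C₂ * T ^ 4 := by
    refine hW.trans ?_
    have h1 : 1 + L * T ≤ 2 * T ^ 2 := by nlinarith
    calc C₂ * (1 + L * T) ^ 2 ≤ C₂ * (2 * T ^ 2) ^ 2 := by
          apply mul_le_mul_of_nonneg_left _ hC₂.le
          exact pow_le_pow_left₀ (by positivity) h1 2
      _ = _ := by ring
  -- J
  have hJ2 : J ≤ 2 * F + 5 * C₀ ^ 2 * N := by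
    refine hJ.trans (add_le_add le_rfl ?_)
    have h1 : (C₀ / T ^ 3) ^ 2 * T * Q ≤ C₀ ^ 2 * N := by
      calc (C₀ / T ^ 3) ^ 2 * T * Q ≤ (C₀ / T ^ 3) ^ 2 * T * (T * N) :=
            mul_le_mul_of_nonneg_left hQ (by positivity)
        _ = C₀ ^ 2 * N * (1 / T ^ 4) := by
            field_simp
        _ ≤ C₀ ^ 2 * N * 1 := by
            apply mul_le_mul_of_nonneg_left _ (by positivity)
            rw [div_le_one (by positivity)]
            exact one_le_pow₀ (by linarith)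
        _ = _ := mul_one _
    linarith
  -- outer part
  have hO : W * (C₃ * C4 * ((T / 2) ^ 18)⁻¹ * G) ≤ C₂ * C₃ * C4 * N := by
    calc W * (C₃ * C4 * ((T / 2) ^ 18)⁻¹ * G) ≤ W * (C₃ * C4 * ((T / 2) ^ 18)⁻¹ * (T ^ 5 * N)) := by
          apply mul_le_mul_of_nonneg_left _ hW0
          exact mul_le_mul_of_nonneg_left hG (by positivity)
      _ ≤ (4 * C₂ * T ^ 4) * (C₃ * C4 * ((T / 2) ^ 18)⁻¹ * (T ^ 5 * N)) :=
          mul_le_mul_of_nonneg_right hW2 (by positivity)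
      _ = C₂ * C₃ * C4 * N * (2 ^ 20 / T ^ 9) := by
          rw [div_pow]
          field_simp
          ring
      _ ≤ C₂ * C₃ * C4 * N * 1 := by
          apply mul_le_mul_of_nonneg_left _ (by positivity)
          rw [div_le_one (by positivity)]
          calc (2 : ℝ) ^ 20 ≤ 16 ^ 9 := by norm_num
            _ ≤ T ^ 9 := pow_le_pow_left₀ (by norm_num) hT 9
      _ = _ := mul_one _
  have hE : W * (51 * (C₀ / T ^ 3) ^ 2 * L ^ 2 * Q) ≤ 204 * C₀ ^ 2 * C₂ * L ^ 3 * N := by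
    calc W * (51 * (C₀ / T ^ 3) ^ 2 * L ^ 2 * Q) ≤ W * (51 * (C₀ / T ^ 3) ^ 2 * L ^ 2 * (T * N)) := by
          apply mul_le_mul_of_nonneg_left _ hW0
          exact mul_le_mul_of_nonneg_left hQ (by positivity)
      _ ≤ (4 * C₂ * T ^ 4) * (51 * (C₀ / T ^ 3) ^ 2 * L ^ 2 * (T * N)) :=
          mul_le_mul_of_nonneg_right hW2 (by positivity)
      _ = 204 * C₀ ^ 2 * C₂ * L ^ 2 * N * (1 / T) := by
          field_simp
          ring
      _ ≤ 204 * C₀ ^ 2 * C₂ * L ^ 2 * N * L := by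
          apply mul_le_mul_of_nonneg_left _ (by positivity)
          have : 1 / T ≤ 1 := by
            rw [div_le_one hT0]
            linarith
          linarith
      _ = _ := by ring
  refine hS.trans ?_
  have h1 : 3 * (A₁ * L ^ 3 * (C₃ * C₂ * J + W * (C₃ * C4 * ((T / 2) ^ 18)⁻¹ * G))) ≤
      3 * (A₁ * L ^ 3 * (C₃ * C₂ * (2 * F + 5 * C₀ ^ 2 * N) + C₂ * C₃ * C4 * N)) := by
    apply mul_le_mul_of_nonneg_left _ (by norm_num)
    apply mul_le_mul_of_nonneg_left _ (by positivity)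
    exact add_le_add (mul_le_mul_of_nonneg_left hJ2 (by positivity)) hO
  have h2 : 0 ≤ (15 * A₁ * C₃ * C₂ * C₀ ^ 2 + 3 * A₁ * C₂ * C₃ * C4 + 204 * C₀ ^ 2 * C₂) * L ^ 3 * F := by
    positivity
  have h3 : 0 ≤ 6 * A₁ * C₃ * C₂ * L ^ 3 * N := by positivity
  calc 3 * (A₁ * L ^ 3 * (C₃ * C₂ * J + W * (C₃ * C4 * ((T / 2) ^ 18)⁻¹ * G))) +
        W * (51 * (C₀ / T ^ 3) ^ 2 * L ^ 2 * Q) ≤
      3 * (A₁ * L ^ 3 * (C₃ * C₂ * (2 * F + 5 * C₀ ^ 2 * N) + C₂ * C₃ * C4 * N)) +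
        204 * C₀ ^ 2 * C₂ * L ^ 3 * N := add_le_add h1 hE
    _ ≤ _ := by
      nlinarith

/-- the core, for an arbitrary finite set of critical zeros -/
theorem core {k : ℝ → ℂ} {C₃ C₂ : ℝ} (hki : Integrable k) (hC₃ : 0 < C₃)
    (hk3 : ∀ x, ‖k x‖ ≤ C₃ / (1 + |x|) ^ 20)
    (hk : ∀ ξ : ℝ, |ξ| ≤ 2 → ∫ x, k x * cexp (I * (ξ * x)) = -(I * ξ)) (hC₂ : 0 < C₂)
    (hw : ∀ (ι : Type) (Z : Finset ι) (x n : ι → ℝ) (L : ℝ), 0 < L →
      (∀ i ∈ Z, ((Z.filter (fun j => |x j - x i| ≤ 2 / L)).card : ℝ) ≤ n i) → ∀ v : ℝ,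
      ∑ i ∈ Z, (n i)⁻¹ * (1 / (1 + L * |v - x i|) ^ 2) ≤ C₂)
    {ψ : ℝ → ℝ} {C₀ T : ℝ} (hψ2 : ∀ u, 5 / 4 ≤ u → ψ u = 0) (hψ3 : ∀ u, 0 ≤ ψ u ∧ ψ u ≤ 1)
    (hz : ∀ s : ℂ, |s.re - 1 / 2| ≤ 1 / 4 → T / 4 ≤ s.im → s.im ≤ 4 * T →
      ‖riemannZeta s - ∑ k ∈ Finset.Icc 1 ⌊T ^ (2 : ℝ)⌋₊,
        ((ψ (Real.log k / Real.log T) : ℝ) : ℂ) * (k : ℂ) ^ (-s)‖ ≤ C₀ / T ^ 3)
    (hT : 16 ≤ T) (hL : 1 ≤ Real.log T) (M : ℕ) (c : ℕ → ℂ) (hM : (M : ℝ) ≤ T ^ (1 / 16 : ℝ))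
    (Z : Finset ℂ) (hZ : ∀ s ∈ Z, s ∈ H370.zset riemannZeta T (2 * T) ∧ s.re = 1 / 2) :
    ∑ s ∈ Z, (n2 T s.im)⁻¹ * (‖deriv riemannZeta s‖ ^ 2 * ‖dp M c s.im‖ ^ 2) ≤
      (6 * (∫ x, ‖k x‖) * C₃ * C₂ + 15 * (∫ x, ‖k x‖) * C₃ * C₂ * C₀ ^ 2 +
        3 * (∫ x, ‖k x‖) * C₂ * C₃ * C4 + 204 * C₀ ^ 2 * C₂) * Real.log T ^ 3 *
        ((∫ t in (T / 2)..(3 * T), ‖zt t‖ ^ 2 * ‖dp M c t‖ ^ 2) + N2 M c) := by
  have hT0 : 0 < T := by linarith
  have hT1 : 1 ≤ T := by linarith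
  obtain ⟨L, hLd⟩ : ∃ L : ℝ, L = Real.log T := ⟨_, rfl⟩
  have hL1 : 1 ≤ L := by rw [hLd]; exact hL
  have hL0 : 0 < L := by linarith
  obtain ⟨K, hK⟩ : ∃ K : ℕ, K = ⌊T ^ (2 : ℝ)⌋₊ := ⟨_, rfl⟩
  obtain ⟨ps, hps⟩ : ∃ ps : ℕ → ℝ, ps = fun k : ℕ => ψ (Real.log k / L) := ⟨_, rfl⟩
  have hKT : (K : ℝ) ≤ T ^ 2 := by
    rw [hK]
    refine (Nat.floor_le (by positivity)).trans (le_of_eq ?_)
    exact_mod_cast Real.rpow_natCast T 2
  have hz' : ∀ s : ℂ, |s.re - 1 / 2| ≤ 1 / 4 → T / 4 ≤ s.im → s.im ≤ 4 * T →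
      ‖riemannZeta s - zt' K ps s‖ ≤ C₀ / T ^ 3 := by
    intro s h1 h2 h3
    have := hz s h1 h2 h3
    rw [← hK, ← hLd] at this
    unfold zt'
    rw [hps]
    exact this
  have hpsY : ∀ k ∈ Finset.Icc 1 K, ps k ≠ 0 → Real.log k ≤ 5 / 4 * L := by
    intro k _ hne
    by_contra hlt
    push Not at hlt
    apply hne
    rw [hps]
    exact hψ2 _ (by rw [le_div_iff₀ hL0]; exact hlt.le)
  have hMT : (M : ℝ) ≤ T := hM.trans (by
    calc T ^ (1 / 16 : ℝ) ≤ T ^ (1 : ℝ) := Real.rpow_le_rpow_of_exponent_le hT1 (by norm_num)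
      _ = T := Real.rpow_one T)
  have hlog : ∀ n ∈ Finset.Icc 1 M, 0 ≤ Real.log n ∧ Real.log n ≤ 1 / 16 * L := by
    intro n hn
    rw [Finset.mem_Icc] at hn
    have h1 : (1 : ℝ) ≤ n := by exact_mod_cast hn.1
    refine ⟨Real.log_nonneg h1, ?_⟩
    have h2 : (n : ℝ) ≤ T ^ (1 / 16 : ℝ) := le_trans (by exact_mod_cast hn.2) hM
    have h3 := Real.log_le_log (by linarith) h2
    rw [Real.log_rpow hT0, ← hLd] at h3
    exact h3
  obtain ⟨S, hS⟩ : ∃ S : Finset (ℕ × ℕ), S = ((Finset.Icc 1 K).filter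
    (fun k : ℕ => Real.log k ≤ 5 / 4 * L)) ×ˢ Finset.Icc 1 M := ⟨_, rfl⟩
  have hfr : ∀ p ∈ S, |fr p| ≤ 2 * L := by
    intro p hp
    rw [hS, Finset.mem_product, Finset.mem_filter, Finset.mem_Icc] at hp
    have h1 : (1 : ℝ) ≤ p.1 := by exact_mod_cast hp.1.1.1
    have h2 := Real.log_nonneg h1
    have h3 := hlog p.2 hp.2
    unfold fr
    rw [abs_of_nonneg (by linarith)]
    linarith [hp.1.2]
  obtain ⟨g, hg⟩ : ∃ g : ℝ → ℂ, g = fun v : ℝ => ∑ p ∈ S, co ps c p * cexp (-(I * (fr p * v))) :=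
    ⟨_, rfl⟩
  have hgc : Continuous g := by
    rw [hg]
    fun_prop
  have hgp : ∀ v : ℝ, g v = zt' K ps (1 / 2 + v * I) * dp M c v := by
    intro v
    rw [prod_eq K M ps c _ hpsY v, hg, hS]
  have hN0 : 0 ≤ N2 M c := by
    unfold N2
    positivity
  have hQ0 : 0 ≤ (M : ℝ) * N2 M c := by positivity
  have hQT : (M : ℝ) * N2 M c ≤ T * N2 M c := mul_le_mul_of_nonneg_right hMT hN0
  have hdb : ∀ v : ℝ, ‖dp M c v‖ ^ 2 ≤ M * N2 M c := by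
    intro v
    have h1 := triv M c c 1 (fun n _ => by rw [one_mul]) v
    rw [one_pow, one_mul] at h1
    exact h1
  have hzb : ∀ v : ℝ, ‖zt' K ps (1 / 2 + v * I)‖ ≤ T ^ 2 := by
    intro v
    unfold zt'
    refine (norm_sum_le _ _).trans ?_
    calc ∑ k ∈ Finset.Icc 1 K, ‖((ps k : ℝ) : ℂ) * (k : ℂ) ^ (-(1 / 2 + v * I))‖ ≤
          ∑ k ∈ Finset.Icc 1 K, (1 : ℝ) := by
          refine Finset.sum_le_sum fun k hk => ?_
          have hk1 : 0 < k := (Finset.mem_Icc.1 hk).1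
          have hk1' : (1 : ℝ) ≤ k := by exact_mod_cast hk1
          rw [norm_mul, Complex.norm_natCast_cpow_of_pos hk1, Complex.norm_real, Real.norm_eq_abs]
          have h2 : (-(1 / 2 + v * I) : ℂ).re = -(1 / 2) := by simp
          rw [h2]
          have h3 : |ps k| ≤ 1 := by
            rw [hps, abs_of_nonneg (hψ3 _).1]
            exact (hψ3 _).2
          have h4 : (k : ℝ) ^ (-(1 / 2) : ℝ) ≤ 1 :=
            Real.rpow_le_one_of_one_le_of_nonpos hk1' (by norm_num)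
          have h5 : 0 ≤ (k : ℝ) ^ (-(1 / 2) : ℝ) := by positivity
          calc |ps k| * (k : ℝ) ^ (-(1 / 2) : ℝ) ≤ 1 * 1 := mul_le_mul h3 h4 h5 (by norm_num)
            _ = 1 := one_mul 1
      _ = K := by simp
      _ ≤ T ^ 2 := hKT
  have hG : ∀ v, ‖g v‖ ^ 2 ≤ T ^ 4 * (M * N2 M c) := by
    intro v
    rw [hgp, norm_mul, mul_pow]
    apply mul_le_mul _ (hdb v) (sq_nonneg _) (by positivity)
    calc ‖zt' K ps (1 / 2 + v * I)‖ ^ 2 ≤ (T ^ 2) ^ 2 := pow_le_pow_left₀ (norm_nonneg _) (hzb v) 2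
      _ = T ^ 4 := by ring
  have hcard : ∀ i ∈ Z, ((Z.filter (fun j : ℂ => |j.im - i.im| ≤ 2 / L)).card : ℝ) ≤ n2 T i.im := by
    intro i _
    rw [hLd]
    exact n2_ge T hT Z (fun s hs => (hZ s hs).1) i.im
  have hwZ := hw ℂ Z (fun s => s.im) (fun s => n2 T s.im) L hL0 hcard
  have hn0 : ∀ i ∈ Z, 0 ≤ (n2 T i.im)⁻¹ := by
    intro i hi
    apply inv_nonneg.2
    exact (Nat.cast_nonneg _).trans (hcard i hi)
  have hx : ∀ i ∈ Z, T ≤ i.im ∧ i.im ≤ 2 * T := fun i hi =>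
    ⟨(hZ i hi).1.2.2.1.le, (hZ i hi).1.2.2.2.1⟩
  have hsi := sum_int hki hC₃.le hk3 Z (fun s => s.im) (fun s => n2 T s.im) hL1 hT0 hn0 hwZ hx hgc hG
  -- sum of the weights
  have hWb : ∑ s ∈ Z, (n2 T s.im)⁻¹ ≤ C₂ * (1 + L * T) ^ 2 := by
    have h1 := hwZ T
    have h2 : ∀ s ∈ Z, (n2 T s.im)⁻¹ ≤ (1 + L * T) ^ 2 * ((n2 T s.im)⁻¹ *
        (1 / (1 + L * |T - s.im|) ^ 2)) := by
      intro s hs
      have h3 : |T - s.im| ≤ T := by
        rw [abs_le]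
        constructor <;> linarith [(hx s hs).1, (hx s hs).2]
      have h4 : (1 + L * |T - s.im|) ^ 2 ≤ (1 + L * T) ^ 2 := by
        apply pow_le_pow_left₀ (by positivity)
        have := mul_le_mul_of_nonneg_left h3 hL0.le
        linarith
      have h5 : 1 ≤ (1 + L * T) ^ 2 * (1 / (1 + L * |T - s.im|) ^ 2) := by
        rw [mul_one_div, le_div_iff₀ (by positivity), one_mul]
        exact h4
      calc (n2 T s.im)⁻¹ = (n2 T s.im)⁻¹ * 1 := (mul_one _).symm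
        _ ≤ (n2 T s.im)⁻¹ * ((1 + L * T) ^ 2 * (1 / (1 + L * |T - s.im|) ^ 2)) :=
          mul_le_mul_of_nonneg_left h5 (hn0 s hs)
        _ = _ := by ring
    refine (Finset.sum_le_sum h2).trans ?_
    rw [← Finset.mul_sum, mul_comm]
    exact mul_le_mul_of_nonneg_right h1 (by positivity)
  have hW0 : 0 ≤ ∑ s ∈ Z, (n2 T s.im)⁻¹ := Finset.sum_nonneg hn0
  -- the integral
  have hzc : ContinuousOn (fun v : ℝ => ‖zt v‖ ^ 2 * ‖dp M c v‖ ^ 2) (Set.Icc (T / 2) (3 * T)) := by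
    have h1 : ContinuousOn (fun v : ℝ => zt v) (Set.Icc (T / 2) (3 * T)) := by
      intro v _
      apply ContinuousAt.continuousWithinAt
      unfold zt
      have h2 : (1 / 2 + v * I : ℂ) ≠ 1 := by
        intro h
        have := congrArg Complex.re h
        norm_num at this
      exact (differentiableAt_riemannZeta h2).continuousAt.comp (f := fun v : ℝ => (1 / 2 + v * I : ℂ))
        (by fun_prop)
    have h2 : Continuous (fun v : ℝ => dp M c v) := by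
      rw [continuous_iff_continuousAt]
      intro v
      exact (dp_deriv M c v).continuousAt
    exact (h1.norm.pow 2).mul (h2.norm.pow 2).continuousOn
  have hzi : IntegrableOn (fun v : ℝ => ‖zt v‖ ^ 2 * ‖dp M c v‖ ^ 2) (Set.Ioc (T / 2) (3 * T)) :=
    (hzc.integrableOn_Icc).mono_set Set.Ioc_subset_Icc_self
  have hJ : ∫ v in Set.Ioc (T / 2) (3 * T), ‖g v‖ ^ 2 ≤
      2 * (∫ t in (T / 2)..(3 * T), ‖zt t‖ ^ 2 * ‖dp M c t‖ ^ 2) +
        5 * (C₀ / T ^ 3) ^ 2 * T * (M * N2 M c) := by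
    rw [intervalIntegral.integral_of_le (by linarith)]
    have h1 : ∀ v ∈ Set.Ioc (T / 2) (3 * T), ‖g v‖ ^ 2 ≤
        2 * (‖zt v‖ ^ 2 * ‖dp M c v‖ ^ 2) + 2 * ((C₀ / T ^ 3) ^ 2 * (M * N2 M c)) := by
      intro v hv
      have h2 : ‖riemannZeta (1 / 2 + v * I) - zt' K ps (1 / 2 + v * I)‖ ≤ C₀ / T ^ 3 := by
        apply hz'
        · simp
        · simp
          linarith [hv.1]
        · simp
          linarith [hv.2]
      have h3 : ‖g v‖ ≤ ‖zt v‖ * ‖dp M c v‖ + C₀ / T ^ 3 * ‖dp M c v‖ := by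
        rw [hgp, norm_mul, ← add_mul]
        apply mul_le_mul_of_nonneg_right _ (norm_nonneg _)
        have h4 : zt' K ps (1 / 2 + v * I) = zt v -
            (riemannZeta (1 / 2 + v * I) - zt' K ps (1 / 2 + v * I)) := by
          unfold zt
          ring
        rw [h4]
        exact (norm_sub_le _ _).trans (add_le_add le_rfl h2)
      have h5 : ‖g v‖ ^ 2 ≤ (‖zt v‖ * ‖dp M c v‖ + C₀ / T ^ 3 * ‖dp M c v‖) ^ 2 :=
        pow_le_pow_left₀ (norm_nonneg _) h3 2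
      have h6 : (‖zt v‖ * ‖dp M c v‖ + C₀ / T ^ 3 * ‖dp M c v‖) ^ 2 ≤
          2 * (‖zt v‖ * ‖dp M c v‖) ^ 2 + 2 * (C₀ / T ^ 3 * ‖dp M c v‖) ^ 2 := by
        nlinarith [sq_nonneg (‖zt v‖ * ‖dp M c v‖ - C₀ / T ^ 3 * ‖dp M c v‖)]
      have h7 : (C₀ / T ^ 3 * ‖dp M c v‖) ^ 2 ≤ (C₀ / T ^ 3) ^ 2 * (M * N2 M c) := by
        rw [mul_pow]
        exact mul_le_mul_of_nonneg_left (hdb v) (sq_nonneg _)
      rw [mul_pow ‖zt v‖] at h6
      linarith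
    have i1 : IntegrableOn (fun v => ‖g v‖ ^ 2) (Set.Ioc (T / 2) (3 * T)) :=
      (hgc.norm.pow 2).integrableOn_Icc.mono_set Set.Ioc_subset_Icc_self
    have i2 : IntegrableOn (fun _ : ℝ => 2 * ((C₀ / T ^ 3) ^ 2 * (M * N2 M c)))
        (Set.Ioc (T / 2) (3 * T)) := by
      exact (continuous_const).integrableOn_Icc.mono_set Set.Ioc_subset_Icc_self
    have i3 : IntegrableOn (fun v : ℝ => 2 * (‖zt v‖ ^ 2 * ‖dp M c v‖ ^ 2) +
        2 * ((C₀ / T ^ 3) ^ 2 * (M * N2 M c))) (Set.Ioc (T / 2) (3 * T)) :=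
      Integrable.add (hzi.const_mul 2) i2
    calc ∫ v in Set.Ioc (T / 2) (3 * T), ‖g v‖ ^ 2 ≤ ∫ v in Set.Ioc (T / 2) (3 * T),
          (2 * (‖zt v‖ ^ 2 * ‖dp M c v‖ ^ 2) + 2 * ((C₀ / T ^ 3) ^ 2 * (M * N2 M c))) :=
          setIntegral_mono_on i1 i3 measurableSet_Ioc h1
      _ = 2 * (∫ v in Set.Ioc (T / 2) (3 * T), ‖zt v‖ ^ 2 * ‖dp M c v‖ ^ 2) +
          (5 / 2 * T) * (2 * ((C₀ / T ^ 3) ^ 2 * (M * N2 M c))) := by
          rw [integral_add (hzi.const_mul 2) i2, integral_const_mul, setIntegral_const]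
          congr 1
          rw [Measure.real, Real.volume_Ioc, ENNReal.toReal_ofReal (by linarith), smul_eq_mul]
          ring
      _ = _ := by ring
  have hF0 : 0 ≤ ∫ t in (T / 2)..(3 * T), ‖zt t‖ ^ 2 * ‖dp M c t‖ ^ 2 := by
    apply intervalIntegral.integral_nonneg (by linarith)
    intro v _
    positivity
  have hA₁ : 0 ≤ ∫ x, ‖k x‖ := integral_nonneg fun x => norm_nonneg _
  refine main_bound hT hL hC₂ hC₃ hA₁ hN0 hF0 hW0 (by rw [← hLd]; exact hWb) hQT hJ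
    (G := T ^ 4 * (M * N2 M c)) ?_ ?_
  · calc T ^ 4 * (M * N2 M c) ≤ T ^ 4 * (T * N2 M c) :=
          mul_le_mul_of_nonneg_left hQT (by positivity)
      _ = _ := by ring
  rw [← hLd]
  have hpt : ∀ s ∈ Z, (n2 T s.im)⁻¹ * (‖deriv riemannZeta s‖ ^ 2 * ‖dp M c s.im‖ ^ 2) ≤
      3 * ((∫ x, ‖k x‖) * L ^ 3 * ((n2 T s.im)⁻¹ * ∫ v : ℝ, ‖k (L * (s.im - v))‖ * ‖g v‖ ^ 2)) +
        (n2 T s.im)⁻¹ * (51 * (C₀ / T ^ 3) ^ 2 * L ^ 2 * (M * N2 M c)) := by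
    intro s hs
    have h1 := zero_bound K M ps c (5 / 4 * L) T L (C₀ / T ^ 3) hT hL1 hpsY
      (fun n hn => (hlog n hn).2.trans (by linarith)) hz' s (hZ s hs).2 (hx s hs).1 (hx s hs).2
      (hZ s hs).1.2.2.2.2
    rw [← hS] at h1
    have h2 := bern hki hk S (co ps c) fr hL0 hfr s.im
    have h3 : ∀ v : ℝ, ‖∑ i ∈ S, co ps c i * cexp (-(I * (fr i * v)))‖ = ‖g v‖ := by
      intro v
      rw [hg]
    simp only [h3] at h2
    have h4 : ‖deriv riemannZeta s‖ ^ 2 * ‖dp M c s.im‖ ^ 2 ≤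
        3 * ((∫ x, ‖k x‖) * L ^ 3 * ∫ v : ℝ, ‖k (L * (s.im - v))‖ * ‖g v‖ ^ 2) +
          51 * (C₀ / T ^ 3) ^ 2 * L ^ 2 * (M * N2 M c) := by
      refine h1.trans ?_
      linarith
    calc (n2 T s.im)⁻¹ * (‖deriv riemannZeta s‖ ^ 2 * ‖dp M c s.im‖ ^ 2) ≤
          (n2 T s.im)⁻¹ * (3 * ((∫ x, ‖k x‖) * L ^ 3 *
            ∫ v : ℝ, ‖k (L * (s.im - v))‖ * ‖g v‖ ^ 2) +
          51 * (C₀ / T ^ 3) ^ 2 * L ^ 2 * (M * N2 M c)) :=
          mul_le_mul_of_nonneg_left h4 (hn0 s hs)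
      _ = _ := by ring
  refine (Finset.sum_le_sum hpt).trans ?_
  rw [Finset.sum_add_distrib, ← Finset.sum_mul, ← Finset.mul_sum, ← Finset.mul_sum]
  refine add_le_add (mul_le_mul_of_nonneg_left ?_ (by norm_num)) le_rfl
  exact mul_le_mul_of_nonneg_left hsi (by positivity)

/-- **job BLS** -/
theorem t_BLS : J_BLS := by
  rintro ⟨ψ, C₀, -, -, hψ2, hψ3, hC₀, hz⟩
  obtain ⟨k, C₃, -, hki, hC₃, hk3, hk⟩ := exists_kernel
  obtain ⟨C₂, hC₂, hw⟩ := weights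
  have hA₁ : 0 ≤ ∫ x, ‖k x‖ := integral_nonneg fun x => norm_nonneg _
  have hC4 := C4_nonneg
  refine ⟨6 * (∫ x, ‖k x‖) * C₃ * C₂ + 15 * (∫ x, ‖k x‖) * C₃ * C₂ * C₀ ^ 2 +
        3 * (∫ x, ‖k x‖) * C₂ * C₃ * C4 + 204 * C₀ ^ 2 * C₂, by positivity, ?_⟩
  filter_upwards [hz, eventually_ge_atTop (Real.exp 1), eventually_ge_atTop 16] with T hz hTe hT M c hM hc
  have hL : 1 ≤ Real.log T := (Real.le_log_iff_exp_le (by linarith)).mpr hTe
  refine core hki hC₃ hk3 hk hC₂ ?_ hψ2 hψ3 hz hT hL M c hM _ ?_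
  · exact hw
  · intro s hs
    rw [Finset.mem_filter, H370.mem_Zf H370.good_zeta (by linarith)] at hs
    exact hs

end

end Pool.Agent.Q210.UM8
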