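import Mathlib

set_option autoImplicit false

/-!
Project UM8 (helper97): job BLS, part 1: a kernel for the derivative of band limited functions, and weights.
-/

namespace Pool.Agent.Q210.UM8

open Filter Topology MeasureTheory Complex
open scoped FourierTransform SchwartzMap ContDiff

noncomputable section

/-- the function `-2 π i w χ(w)` -/
theorem exists_mult : ∃ f : 𝓢(ℝ, ℂ), ∀ w : ℝ, |w| ≤ 1 → f w = -(2 * Real.pi * I * w) := by
  let χ : ContDiffBump (0 : ℝ) := ⟨1, 2, by norm_num, by norm_num⟩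
  have h1 : ContDiff ℝ ∞ (fun w : ℝ => -(2 * Real.pi * I * (w : ℂ)) * ((χ w : ℝ) : ℂ)) := by
    have h2 : ContDiff ℝ ∞ (fun w : ℝ => ((χ w : ℝ) : ℂ)) :=
      Complex.ofRealCLM.contDiff.comp χ.contDiff
    have h3 : ContDiff ℝ ∞ (fun w : ℝ => (w : ℂ)) := Complex.ofRealCLM.contDiff
    exact ((contDiff_const.mul h3).neg).mul h2
  have h4 : HasCompactSupport (fun w : ℝ => -(2 * Real.pi * I * (w : ℂ)) * ((χ w : ℝ) : ℂ)) := by
    apply HasCompactSupport.mul_left
    exact χ.hasCompactSupport.comp_left (g := fun x : ℝ => (x : ℂ)) (by simp)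
  refine ⟨h4.toSchwartzMap h1, fun w hw => ?_⟩
  show -(2 * Real.pi * I * (w : ℂ)) * ((χ w : ℝ) : ℂ) = _
  rw [χ.one_of_mem_closedBall]
  · simp
  · rw [Metric.mem_closedBall, dist_zero_right, Real.norm_eq_abs]
    exact hw

/-- the kernel -/
theorem exists_kernel : ∃ (k : ℝ → ℂ) (C : ℝ), Continuous k ∧ Integrable k ∧ 0 < C ∧
    (∀ x, ‖k x‖ ≤ C / (1 + |x|) ^ 20) ∧
    ∀ ξ : ℝ, |ξ| ≤ 2 → ∫ x, k x * cexp (I * (ξ * x)) = -(I * ξ) := by
  obtain ⟨f, hf⟩ := exists_mult
  obtain ⟨g, hg⟩ : ∃ g : 𝓢(ℝ, ℂ), g = 𝓕 f := ⟨_, rfl⟩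
  have hinv : 𝓕⁻ g = f := by
    rw [hg]
    exact FourierPair.fourierInv_fourier_eq f
  refine ⟨g, 2 ^ 20 * ((Finset.Iic (20, 0)).sup fun m => SchwartzMap.seminorm ℝ m.1 m.2) g + 1,
    g.continuous, g.integrable, ?_, ?_, ?_⟩
  · have : 0 ≤ ((Finset.Iic (20, 0)).sup fun m => SchwartzMap.seminorm ℝ m.1 m.2) g :=
      apply_nonneg _ _
    positivity
  · intro x
    have h1 := SchwartzMap.one_add_le_sup_seminorm_apply (𝕜 := ℝ) (m := (20, 0)) (k := 20) (n := 0)
      le_rfl le_rfl g x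
    rw [norm_iteratedFDeriv_zero, Real.norm_eq_abs] at h1
    rw [le_div_iff₀ (by positivity)]
    change (1 + |x|) ^ 20 * ‖g x‖ ≤ 2 ^ 20 * _ at h1
    linarith
  · intro ξ hξ
    have h1 : (𝓕⁻ g : 𝓢(ℝ, ℂ)) (ξ / (2 * Real.pi)) = f (ξ / (2 * Real.pi)) := by rw [hinv]
    rw [SchwartzMap.fourierInv_coe, Real.fourierInv_eq', hf] at h1
    · have hpi : (Real.pi : ℂ) ≠ 0 := by exact_mod_cast Real.pi_ne_zero
      have h2 : -(2 * Real.pi * I * ((ξ / (2 * Real.pi) : ℝ) : ℂ)) = -(I * ξ) := by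
        push_cast
        field_simp
      rw [h2] at h1
      rw [← h1]
      apply integral_congr_ae
      refine Eventually.of_forall fun v => ?_
      simp only [smul_eq_mul]
      rw [mul_comm]
      congr 2
      simp only [RCLike.inner_apply, conj_trivial]
      push_cast
      field_simp
    · rw [abs_div, abs_of_pos (by positivity : (0 : ℝ) < 2 * Real.pi), div_le_one (by positivity)]
      have := Real.pi_gt_three
      linarith

/-- Cauchy-Schwarz with a weight -/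
theorem cs_weight {K h : ℝ → ℝ} {b : ℝ} (hK : Integrable K) (hK0 : ∀ x, 0 ≤ K x) (hh : Continuous h)
    (hb : ∀ x, |h x| ≤ b) : (∫ x, K x * h x) ^ 2 ≤ (∫ x, K x) * ∫ x, K x * h x ^ 2 := by
  have i1 : Integrable (fun x => K x * h x) := by
    refine (hK.bdd_mul (c := b) hh.aestronglyMeasurable (Eventually.of_forall hb)).congr ?_
    exact Eventually.of_forall fun x => mul_comm _ _
  have i2 : Integrable (fun x => K x * h x ^ 2) := by
    refine (i1.bdd_mul (c := b) hh.aestronglyMeasurable (Eventually.of_forall hb)).congr ?_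
    refine Eventually.of_forall fun x => ?_
    simp only
    ring
  have h1 : ∀ x : ℝ, 0 ≤ (∫ y, K y) * (x * x) + (-(2 * ∫ y, K y * h y)) * x +
      ∫ y, K y * h y ^ 2 := by
    intro x
    have h2 : 0 ≤ ∫ y, K y * (h y - x) ^ 2 :=
      integral_nonneg fun y => mul_nonneg (hK0 y) (sq_nonneg _)
    have h3 : ∫ y, K y * (h y - x) ^ 2 = ∫ y, ((K y * h y ^ 2 + (-2 * x) * (K y * h y)) +
        (x * x) * K y) := by
      congr 1
      funext y
      ring
    have i3 : Integrable (fun y => K y * h y ^ 2 + (-2 * x) * (K y * h y)) :=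
      i2.add (i1.const_mul (-2 * x))
    rw [h3, integral_add i3 (hK.const_mul (x * x)),
      integral_add i2 (i1.const_mul (-2 * x)), integral_const_mul, integral_const_mul] at h2
    linarith
  have h4 := discrim_le_zero h1
  unfold discrim at h4
  nlinarith

/-- the derivative of a band limited function, Bernstein inequality in local form -/
theorem bern {k : ℝ → ℂ} (hki : Integrable k)
    (hk : ∀ ξ : ℝ, |ξ| ≤ 2 → ∫ x, k x * cexp (I * (ξ * x)) = -(I * ξ)) {ι : Type} (S : Finset ι)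
    (a : ι → ℂ) (fr : ι → ℝ) {L : ℝ} (hL : 0 < L) (hfr : ∀ i ∈ S, |fr i| ≤ 2 * L) (t : ℝ) :
    ‖∑ i ∈ S, a i * (-(I * fr i)) * cexp (-(I * (fr i * t)))‖ ^ 2 ≤
      (∫ x, ‖k x‖) * L ^ 3 * ∫ v : ℝ, ‖k (L * (t - v))‖ *
        ‖∑ i ∈ S, a i * cexp (-(I * (fr i * v)))‖ ^ 2 := by
  obtain ⟨g, hg⟩ : ∃ g : ℝ → ℂ, g = fun v : ℝ => ∑ i ∈ S, a i * cexp (-(I * (fr i * v))) := ⟨_, rfl⟩
  have hgc : Continuous g := by
    rw [hg]
    fun_prop
  have hcexp : ∀ (i : ι) (v : ℝ), ‖cexp (-(I * (fr i * v)))‖ = 1 := by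
    intro i v
    have : (-(I * (fr i * v)) : ℂ) = ((-(fr i * v) : ℝ) : ℂ) * I := by
      push_cast
      ring
    rw [this, Complex.norm_exp_ofReal_mul_I]
  have hgb : ∀ v, ‖g v‖ ≤ ∑ i ∈ S, ‖a i‖ := by
    intro v
    rw [hg]
    refine (norm_sum_le _ _).trans (Finset.sum_le_sum fun i _ => ?_)
    rw [norm_mul, hcexp, mul_one]
  have hK : Integrable (fun v : ℝ => k (L * (t - v))) := by
    have h1 := (hki.comp_mul_left' hL.ne').comp_sub_left t
    exact h1
  -- one exponential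
  have hone : ∀ i ∈ S, ∫ v : ℝ, k (L * (t - v)) * (a i * cexp (-(I * (fr i * v)))) =
      (L : ℂ)⁻¹ ^ 2 * (a i * (-(I * fr i)) * cexp (-(I * (fr i * t)))) := by
    intro i hi
    have h1 : ∀ v : ℝ, k (L * (t - v)) * (a i * cexp (-(I * (fr i * v)))) =
        (fun x : ℝ => (a i * cexp (-(I * (fr i * t)))) *
          (k (L * x) * cexp (I * (((fr i / L : ℝ) : ℂ) * (L * x : ℝ))))) (t - v) := by
      intro v
      simp only
      have h2 : cexp (-(I * (fr i * v))) = cexp (-(I * (fr i * t))) *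
          cexp (I * (((fr i / L : ℝ) : ℂ) * (L * (t - v) : ℝ))) := by
        rw [← Complex.exp_add]
        congr 1
        have hLc : (L : ℂ) ≠ 0 := by exact_mod_cast hL.ne'
        push_cast
        field_simp
        ring
      rw [h2]
      ring
    simp only [h1]
    rw [integral_sub_left_eq_self (fun x : ℝ => (a i * cexp (-(I * (fr i * t)))) *
          (k (L * x) * cexp (I * (((fr i / L : ℝ) : ℂ) * (L * x : ℝ))))) volume t,
      integral_const_mul]
    have h3 := Measure.integral_comp_mul_left (fun x : ℝ => k x * cexp (I * (((fr i / L : ℝ) : ℂ) * (x : ℝ)))) L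
    rw [h3, hk]
    · rw [abs_of_pos (inv_pos.2 hL), Complex.real_smul]
      push_cast
      have hLc : (L : ℂ) ≠ 0 := by exact_mod_cast hL.ne'
      field_simp
    · rw [abs_div, abs_of_pos hL, div_le_iff₀ hL]
      exact hfr i hi
  have hsum : ∑ i ∈ S, a i * (-(I * fr i)) * cexp (-(I * (fr i * t))) =
      (L : ℂ) ^ 2 * ∫ v : ℝ, k (L * (t - v)) * g v := by
    have h1 : ∫ v : ℝ, k (L * (t - v)) * g v =
        ∑ i ∈ S, ∫ v : ℝ, k (L * (t - v)) * (a i * cexp (-(I * (fr i * v)))) := by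
      rw [← integral_finsetSum]
      · rw [hg]
        simp only [Finset.mul_sum]
      · intro i _
        refine (hK.bdd_mul (c := ‖a i‖) (f := fun v : ℝ => a i * cexp (-(I * (fr i * v)))) ?_ ?_).congr ?_
        · exact (by fun_prop : Continuous fun v : ℝ => a i * cexp (-(I * (fr i * v)))).aestronglyMeasurable
        · refine Eventually.of_forall fun v => ?_
          rw [norm_mul, hcexp, mul_one]
        · exact Eventually.of_forall fun v => mul_comm _ _
    rw [h1, Finset.sum_congr rfl hone, ← Finset.mul_sum]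
    have hLc : (L : ℂ) ≠ 0 := by exact_mod_cast hL.ne'
    rw [← mul_assoc, ← mul_pow, mul_inv_cancel₀ hLc, one_pow, one_mul]
  rw [hsum, norm_mul, mul_pow]
  have h5 : ‖∫ v : ℝ, k (L * (t - v)) * g v‖ ≤ ∫ v : ℝ, ‖k (L * (t - v))‖ * ‖g v‖ := by
    refine (norm_integral_le_integral_norm _).trans (le_of_eq ?_)
    congr 1
    funext v
    rw [norm_mul]
  have h6 := cs_weight (K := fun v : ℝ => ‖k (L * (t - v))‖) (h := fun v => ‖g v‖)
    (b := ∑ i ∈ S, ‖a i‖) hK.norm (fun x => norm_nonneg _) hgc.norm (fun x => by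
      rw [abs_of_nonneg (norm_nonneg _)]
      exact hgb x)
  have h7 : ∫ v : ℝ, ‖k (L * (t - v))‖ = L⁻¹ * ∫ x, ‖k x‖ := by
    rw [integral_sub_left_eq_self (fun x : ℝ => ‖k (L * x)‖) volume t]
    have h8 := Measure.integral_comp_mul_left (fun x : ℝ => ‖k x‖) L
    rw [h8, abs_of_pos (inv_pos.2 hL), smul_eq_mul]
  rw [h7] at h6
  have h9 : ‖∫ v : ℝ, k (L * (t - v)) * g v‖ ^ 2 ≤ L⁻¹ * (∫ x, ‖k x‖) *
      ∫ v : ℝ, ‖k (L * (t - v))‖ * ‖g v‖ ^ 2 :=
    (pow_le_pow_left₀ (norm_nonneg _) h5 2).trans h6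
  have h10 : ‖(L : ℂ) ^ 2‖ ^ 2 = L ^ 4 := by
    rw [norm_pow, Complex.norm_real, Real.norm_eq_abs, abs_of_pos hL]
    ring
  rw [h10]
  have hgv : ∀ v : ℝ, ‖∑ i ∈ S, a i * cexp (-(I * (fr i * v)))‖ = ‖g v‖ := by
    intro v
    rw [hg]
  simp only [hgv]
  calc L ^ 4 * ‖∫ v : ℝ, k (L * (t - v)) * g v‖ ^ 2 ≤ L ^ 4 * (L⁻¹ * (∫ x, ‖k x‖) *
      ∫ v : ℝ, ‖k (L * (t - v))‖ * ‖g v‖ ^ 2) := mul_le_mul_of_nonneg_left h9 (by positivity)
    _ = _ := by
      field_simp

theorem summable_int : Summable (fun m : ℤ => 4 / (1 + |(m : ℝ)|) ^ 2) := by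
  have h0 : Summable (fun n : ℕ => 4 / (1 + |((n : ℤ) : ℝ)|) ^ 2) := by
    have h1 : Summable (fun n : ℕ => 1 / ((n : ℝ)) ^ 2) := Real.summable_one_div_nat_pow.2 (by norm_num)
    have h2 : Summable (fun n : ℕ => 1 / (((n + 1 : ℕ) : ℝ)) ^ 2) :=
      (summable_nat_add_iff (f := fun n : ℕ => 1 / ((n : ℝ)) ^ 2) 1).2 h1
    refine (h2.mul_left 4).congr fun n => ?_
    have : |((n : ℤ) : ℝ)| = (n : ℝ) := by
      rw [Int.cast_natCast, abs_of_nonneg (Nat.cast_nonneg n)]
    rw [this]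
    push_cast
    ring
  apply Summable.of_nat_of_neg h0
  refine h0.congr fun n => ?_
  push_cast
  rw [abs_neg]

/-- the weights -/
theorem weights : ∃ C : ℝ, 0 < C ∧ ∀ (ι : Type) (Z : Finset ι) (x n : ι → ℝ) (L : ℝ), 0 < L →
    (∀ i ∈ Z, ((Z.filter (fun j => |x j - x i| ≤ 2 / L)).card : ℝ) ≤ n i) → ∀ v : ℝ,
    ∑ i ∈ Z, (n i)⁻¹ * (1 / (1 + L * |v - x i|) ^ 2) ≤ C := by
  classical
  refine ⟨(∑' m : ℤ, 4 / (1 + |(m : ℝ)|) ^ 2) + 1, ?_, ?_⟩
  · have : 0 ≤ ∑' m : ℤ, 4 / (1 + |(m : ℝ)|) ^ 2 := tsum_nonneg fun m => by positivity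
    linarith
  intro ι Z x n L hL hn v
  obtain ⟨ce, hce⟩ : ∃ ce : ι → ℤ, ce = fun i => ⌊L * (x i - v)⌋ := ⟨_, rfl⟩
  have hpos : ∀ i ∈ Z, 1 ≤ n i := by
    intro i hi
    refine le_trans ?_ (hn i hi)
    have : 0 < (Z.filter (fun j => |x j - x i| ≤ 2 / L)).card := by
      rw [Finset.card_pos]
      refine ⟨i, ?_⟩
      rw [Finset.mem_filter, sub_self, abs_zero]
      exact ⟨hi, by positivity⟩
    exact_mod_cast this
  have h1 : ∀ i ∈ Z, 1 / (1 + L * |v - x i|) ^ 2 ≤ 4 / (1 + |((ce i : ℤ) : ℝ)|) ^ 2 := by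
    intro i _
    have h2 : |((ce i : ℤ) : ℝ)| ≤ 1 + L * |v - x i| := by
      have h3 : |((ce i : ℤ) : ℝ) - L * (x i - v)| ≤ 1 := by
        rw [hce, abs_le]
        have h4 := Int.floor_le (L * (x i - v))
        have h5 := Int.lt_floor_add_one (L * (x i - v))
        constructor <;> simp only <;> linarith
      have h6 : |L * (x i - v)| = L * |v - x i| := by
        rw [abs_mul, abs_of_pos hL, abs_sub_comm]
      have h7 := abs_sub_abs_le_abs_sub ((ce i : ℤ) : ℝ) (L * (x i - v))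
      rw [h6] at h7
      linarith
    have h8 : 0 ≤ L * |v - x i| := by positivity
    have h9 : 0 ≤ |((ce i : ℤ) : ℝ)| := abs_nonneg _
    rw [div_le_div_iff₀ (by positivity) (by positivity), one_mul]
    have h10 : 1 + |((ce i : ℤ) : ℝ)| ≤ 2 * (1 + L * |v - x i|) := by linarith
    calc (1 + |((ce i : ℤ) : ℝ)|) ^ 2 ≤ (2 * (1 + L * |v - x i|)) ^ 2 :=
          pow_le_pow_left₀ (by positivity) h10 2
      _ = _ := by ring
  have h2 : ∑ i ∈ Z, (n i)⁻¹ * (1 / (1 + L * |v - x i|) ^ 2) ≤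
      ∑ i ∈ Z, (n i)⁻¹ * (4 / (1 + |((ce i : ℤ) : ℝ)|) ^ 2) :=
    Finset.sum_le_sum fun i hi => mul_le_mul_of_nonneg_left (h1 i hi)
      (inv_nonneg.2 (by linarith [hpos i hi]))
  refine h2.trans ?_
  have h3 : ∑ i ∈ Z, (n i)⁻¹ * (4 / (1 + |((ce i : ℤ) : ℝ)|) ^ 2) =
      ∑ m ∈ Z.image ce, ∑ i ∈ Z.filter (fun i => ce i = m),
        (n i)⁻¹ * (4 / (1 + |((ce i : ℤ) : ℝ)|) ^ 2) :=
    (Finset.sum_fiberwise_of_maps_to (fun i hi => Finset.mem_image_of_mem ce hi) _).symm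
  rw [h3]
  have h4 : ∀ m ∈ Z.image ce, ∑ i ∈ Z.filter (fun i => ce i = m),
      (n i)⁻¹ * (4 / (1 + |((ce i : ℤ) : ℝ)|) ^ 2) ≤ 4 / (1 + |(m : ℝ)|) ^ 2 := by
    intro m hm
    have h5 : ∀ i ∈ Z.filter (fun i => ce i = m), (n i)⁻¹ * (4 / (1 + |((ce i : ℤ) : ℝ)|) ^ 2) ≤
        ((Z.filter (fun i => ce i = m)).card : ℝ)⁻¹ * (4 / (1 + |(m : ℝ)|) ^ 2) := by
      intro i hi
      rw [Finset.mem_filter] at hi
      rw [hi.2]
      apply mul_le_mul_of_nonneg_right _ (by positivity)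
      have h6 : (0 : ℝ) < ((Z.filter (fun i => ce i = m)).card : ℝ) := by
        have : 0 < (Z.filter (fun i => ce i = m)).card := Finset.card_pos.2
          ⟨i, Finset.mem_filter.2 hi⟩
        exact_mod_cast this
      apply inv_anti₀ h6
      refine le_trans ?_ (hn i hi.1)
      have h7 : (Z.filter (fun i => ce i = m)) ⊆ Z.filter (fun j => |x j - x i| ≤ 2 / L) := by
        intro j hj
        rw [Finset.mem_filter] at hj ⊢
        refine ⟨hj.1, ?_⟩
        have e1 : ⌊L * (x j - v)⌋ = m := by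
          have := hj.2
          rw [hce] at this
          exact this
        have e2 : ⌊L * (x i - v)⌋ = m := by
          have := hi.2
          rw [hce] at this
          exact this
        have f1 := Int.floor_le (L * (x j - v))
        have f2 := Int.lt_floor_add_one (L * (x j - v))
        have f3 := Int.floor_le (L * (x i - v))
        have f4 := Int.lt_floor_add_one (L * (x i - v))
        rw [e1] at f1 f2
        rw [e2] at f3 f4
        have f5 : L * |x j - x i| ≤ 2 := by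
          have : L * |x j - x i| = |L * (x j - v) - L * (x i - v)| := by
            rw [← mul_sub, abs_mul, abs_of_pos hL]
            congr 2
            ring
          rw [this, abs_le]
          constructor <;> linarith
        rw [le_div_iff₀ hL]
        linarith
      exact_mod_cast Finset.card_le_card h7
    refine (Finset.sum_le_sum h5).trans ?_
    rw [Finset.sum_const, nsmul_eq_mul, ← mul_assoc]
    have h6 : ((Z.filter (fun i => ce i = m)).card : ℝ) ≠ 0 := by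
      obtain ⟨i, hi, him⟩ := Finset.mem_image.1 hm
      have : 0 < (Z.filter (fun i => ce i = m)).card := Finset.card_pos.2
          ⟨i, Finset.mem_filter.2 ⟨hi, him⟩⟩
      exact_mod_cast this.ne'
    rw [mul_inv_cancel₀ h6, one_mul]
  refine (Finset.sum_le_sum h4).trans ?_
  have h5 := summable_int.sum_le_tsum (Z.image ce) (fun m _ => by positivity)
  linarith

end

end Pool.Agent.Q210.UM8
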