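import Pool.Agent.Q97.UM.Stm14
import Pool.Agent.Q14.UM.EK

set_option autoImplicit false

/-!
Project UM8 (helper97): job EK9, the polynomial `ebk` has the properties `EKd` (after `Pool.Agent.Q14.UM.t_EK`).
-/

namespace Pool.Agent.Q210.UM8

open Filter Topology MeasureTheory Complex
open Pool.Agent.Q97.UM
open Pool.Agent.Q14.UM

noncomputable section

theorem R9_ge_RB (κ : ℝ) (hκ : 0 ≤ κ) (j : ℕ) : RB' κ j ≤ R9 κ j := by
  unfold RB' R9
  apply Nat.ceil_le_ceil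
  apply mul_le_mul_of_nonneg_left _ hκ
  apply Real.exp_le_exp.2
  have : (0 : ℝ) ≤ j := Nat.cast_nonneg j
  linarith

theorem R9_pos (κ : ℝ) (hκ : 1 ≤ κ) (j : ℕ) : 1 ≤ R9 κ j :=
  (RB_pos κ hκ j).trans (R9_ge_RB κ (by linarith) j)

/-- weights -/
def w9 (κ : ℝ) (j : ℕ) : ℝ := 2 * (10 / (R9 κ j : ℝ)) ^ 5

theorem w9_nonneg (κ : ℝ) (j : ℕ) : 0 ≤ w9 κ j := by
  unfold w9
  positivity

theorem w9_le (κ : ℝ) (hκ : 1 ≤ κ) (j : ℕ) : w9 κ j ≤ wB κ j := by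
  unfold w9 wB
  have h1 : (0 : ℝ) < (RB' κ j : ℝ) := by exact_mod_cast RB_pos κ hκ j
  have h2 : (RB' κ j : ℝ) ≤ (R9 κ j : ℝ) := by exact_mod_cast R9_ge_RB κ (by linarith) j
  gcongr

theorem up_bd9 (hTE : S_TE) (hcof : S_COF) (D κ : ℝ) (hD : 1 ≤ D) (hκ : 1 ≤ κ) (a a2 : ℕ → ℂ)
    (t : ℝ) (M₀ : ℕ) (hM₀ : ∀ j, KB' D j ≤ M₀) (hne : dp (M9 D κ) (ebk D κ a a2 0 (JB D)) t ≠ 0) :
    Real.log ‖dp (M9 D κ) (ebk D κ a a2 0 (JB D)) t‖ ≤ (PA ⌊Real.exp D⌋₊ a a2 t).re + 3 +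
      ∑ j ∈ Finset.range (JB D), w9 κ j * ‖dp M₀ (qb D a a2 j) t‖ ^ 6 := by
  have hD0 : 0 ≤ D := by linarith
  have h0 := (hcof κ D hκ hD a a2 a a2 0 0).2.1 t
  rw [Nat.sub_zero] at h0
  have h0' : dp (M9 D κ) (ebk D κ a a2 0 (JB D)) t =
      ∏ j ∈ Finset.range (JB D), ∑ r ∈ Finset.range (R9 κ j + 1),
        dp (KB' D j) (qb D a a2 j) t ^ r / (r.factorial : ℂ) := by
    rw [h0]
    unfold Ef
    rw [← Finset.range_eq_Ico]
    rfl
  rw [h0'] at hne ⊢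
  rw [norm_prod, Real.log_prod]
  · have h1 : ∀ j ∈ Finset.range (JB D), Real.log ‖∑ r ∈ Finset.range (R9 κ j + 1),
        dp (KB' D j) (qb D a a2 j) t ^ r / (r.factorial : ℂ)‖ ≤
        (dp (KB' D j) (qb D a a2 j) t).re + (4 / 7 : ℝ) ^ j +
          w9 κ j * ‖dp M₀ (qb D a a2 j) t‖ ^ 6 := by
      intro j hj
      have h2 := hTE (R9 κ j) (dp (KB' D j) (qb D a a2 j) t) (R9_pos κ hκ j)
        (Finset.prod_ne_zero_iff.1 hne j hj)
      have h3 : Real.exp (-(R9 κ j : ℝ)) ≤ (4 / 7 : ℝ) ^ j := by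
        have e1 : Real.exp (-(R9 κ j : ℝ)) ≤ Real.exp (-((3 / 4 : ℝ) * j)) := by
          apply Real.exp_le_exp.2
          have e2 := RB_ge κ j
          have e3 := Real.add_one_le_exp (3 / 4 * (j : ℝ))
          have e4 : 0 < Real.exp (3 / 4 * (j : ℝ)) := Real.exp_pos _
          have e5 : (RB' κ j : ℝ) ≤ (R9 κ j : ℝ) := by exact_mod_cast R9_ge_RB κ (by linarith) j
          nlinarith
        refine e1.trans ?_
        apply exp_neg_mul_nat
        have := exp_neg_le (3 / 4) (by norm_num)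
        norm_num at this ⊢
        exact this
      have h4 : dp (KB' D j) (qb D a a2 j) t = dp M₀ (qb D a a2 j) t := by
        apply dp_ext
        · exact Q14.UM.qb_len D a a2 j hD0
        · intro n hn
          exact Q14.UM.qb_len D a a2 j hD0 n (lt_of_le_of_lt (hM₀ j) hn)
      unfold w9
      rw [← h4]
      linarith
    refine (Finset.sum_le_sum h1).trans ?_
    rw [Finset.sum_add_distrib, Finset.sum_add_distrib, ← sum_zj D a a2 hD t, Complex.re_sum]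
    have h5 := geo_le (4 / 7) (by norm_num) (by norm_num) (JB D)
    norm_num at h5
    linarith
  · intro j hj
    exact norm_ne_zero_iff.2 (Finset.prod_ne_zero_iff.1 hne j hj)

theorem t_EK9 : J_EK9 := by
  intro hTE hBM hQM hEN hcof hd A hA
  obtain ⟨κ₀, hκ₀, c, _, hc, _, hEN⟩ := hEN A hA
  obtain ⟨C₁, hC₁, hQM'⟩ := hQM hBM
  refine ⟨κ₀, hκ₀, ?_⟩
  intro κ δ hκκ hδ
  have hκ : 1 ≤ κ := by linarith
  refine ⟨max 3 ((C₁ * A ^ 2 * (7 + 26 * κ)) ^ 3 * 600000), c,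
    le_trans (by norm_num) (le_max_left _ _), hc, ?_⟩
  filter_upwards [eventually_ge_atTop (Real.exp (1 / δ)), eventually_ge_atTop 1] with T hT hT1
  intro a a2 ha ha2
  have hT0 : 0 < T := by linarith
  obtain ⟨D, hD⟩ : ∃ D : ℝ, D = δ * Real.log T := ⟨_, rfl⟩
  have hD1 : 1 ≤ D := by
    have h1 : 1 / δ ≤ Real.log T := (Real.le_log_iff_exp_le hT0).2 hT
    rw [div_le_iff₀ hδ] at h1
    rw [hD]; linarith
  have hD0 : 0 ≤ D := by linarith
  have rp : ∀ x : ℝ, T ^ (x * δ) = Real.exp (x * D) := by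
    intro x
    rw [Real.rpow_def_of_pos hT0, hD]; congr 1; ring
  have rp1 : T ^ δ = Real.exp D := by
    have := rp 1
    simpa using this
  rw [← hD]
  have hM₀ : ∀ j, KB' D j ≤ ⌊Real.exp (2 * D)⌋₊ := fun j => KB_le_M D j hD0
  refine ⟨JB D, ⌊Real.exp (2 * D)⌋₊, fun j => qb D a a2 j, fun j => w9 κ j, ?_⟩
  constructor
  · rw [rp]
    unfold M9
    rw [show 20 * (13 / 10 * κ) * D = 26 * κ * D by ring]
    exact Nat.floor_le (Real.exp_pos _).le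
  · intro n hn
    have h1 := (hcof κ D hκ hD1 a a2 a a2 0 0).1 n
    rw [Nat.sub_zero] at h1
    exact h1 hn
  · rw [rp1]
    exact (hEN κ D a a2 hκκ hD1 ha ha2).1
  · intro j
    exact w9_nonneg κ j
  · intro j n hn
    refine ⟨Nat.one_le_iff_ne_zero.2 (SP_qb D a a2 j n hn).1, ?_⟩
    by_contra h
    exact hn (Q14.UM.qb_len D a a2 j hD0 n (lt_of_le_of_lt (hM₀ j) (not_le.1 h)))
  · rw [rp 2]
    exact Nat.floor_le (Real.exp_pos _).le
  · intro t hne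
    have h1 := up_bd9 hTE hcof D κ hD1 hκ a a2 t _ hM₀ hne
    rw [rp1]
    have h2 := le_max_left (3 : ℝ) ((C₁ * A ^ 2 * (7 + 26 * κ)) ^ 3 * 600000)
    linarith
  · intro M f hM hMT hf
    have hQM2 : ∀ (j K M : ℕ) (f : ℕ → ℂ), 1 ≤ M → KB' D j ≤ K → (∀ n, M < n → f n = 0) →
        N2 (K * M) (cv (qb D a a2 j) f) ≤ C₁ * A ^ 2 * (Real.exp (j : ℝ) * Real.log (K * M) / D) * N2 M f := by
      intro j K M f hM hK hf
      exact hQM' D A j K M a a2 f hD1 (by linarith) hM hK ha ha2 hf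
    have hM' : (1 : ℝ) ≤ M := by exact_mod_cast hM
    have hM01 : 1 ≤ ⌊Real.exp (2 * D)⌋₊ := (KB_one D 0 hD0).trans (hM₀ 0)
    have hM01' : (1 : ℝ) ≤ (⌊Real.exp (2 * D)⌋₊ : ℝ) := by exact_mod_cast hM01
    have hY : Real.log ((⌊Real.exp (2 * D)⌋₊ : ℝ) ^ 3 * M) ≤ (7 + 26 * κ) * D := by
      rw [Real.log_mul (by positivity) (by positivity), Real.log_pow]
      have h1 : Real.log (⌊Real.exp (2 * D)⌋₊ : ℝ) ≤ 2 * D := by
        rw [Real.log_le_iff_le_exp (by linarith)]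
        exact Nat.floor_le (Real.exp_pos _).le
      have h2 : Real.log (M : ℝ) ≤ (1 + 26 * κ) * D := by
        rw [Real.log_le_iff_le_exp (by linarith), ← rp]
        refine hMT.trans (le_of_eq ?_)
        congr 1
        ring
      push_cast
      linarith
    have h1 := mean_bd A C₁ D κ (7 + 26 * κ) hA hC₁ hD1 hκ a a2 hQM2 _ M hM₀ hM hY (by linarith) f hf (JB D)
    have hN0 : ∀ (X : ℕ) (b : ℕ → ℂ), 0 ≤ N2 X b := by
      intro X b
      unfold N2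
      positivity
    have h3 : ∑ j ∈ Finset.range (JB D), w9 κ j * N2 (⌊Real.exp (2 * D)⌋₊ ^ 3 * M)
        (cv (qb D a a2 j) (cv (qb D a a2 j) (cv (qb D a a2 j) f))) ≤
        ∑ j ∈ Finset.range (JB D), wB κ j * N2 (⌊Real.exp (2 * D)⌋₊ ^ 3 * M)
        (cv (qb D a a2 j) (cv (qb D a a2 j) (cv (qb D a a2 j) f))) :=
      Finset.sum_le_sum fun j _ => mul_le_mul_of_nonneg_right (w9_le κ hκ j) (hN0 _ _)
    refine h3.trans (h1.trans ?_)
    exact mul_le_mul_of_nonneg_right (le_max_right _ _) (hN0 _ _)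

end

end Pool.Agent.Q210.UM8
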