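import Pool.Agent.Q97.UM.Stm15
import Pool.Agent.Q98.UM.LBD

/-!
Project UM8 (helper97): job LBDK, the lower bound over the isolated simple zeros for a given polynomial. The proof is that of
`Pool.Agent.Q98.UM.t_LBD` (helper98).
-/

set_option autoImplicit false

namespace Pool.Agent.Q210.UM8

open Filter Topology MeasureTheory Complex
open Pool.Agent.Q97.UM
open Pool.Agent.Q98.UM

theorem t_LBDK : J_LBDK := by
  intro hSI hS hTD hD
  obtain ⟨d, θ₁, hd, -, hθ₁, -, hSI⟩ := hSI (1 / 10) (by norm_num)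
  obtain ⟨θ₂, hθ₂, -, hS⟩ := hS 1 one_pos
  obtain ⟨θ₃, δ₀, hθ₃, hδ₀, hTD⟩ := hTD 1
  refine ⟨d, hd, fun A κ hA hκ => ?_⟩
  have hκ1 : 0 < 7 + 20 * κ := by linarith
  obtain ⟨δ₁, hδ₁, hδ₁'⟩ : ∃ δ₁ : ℝ, 0 < δ₁ ∧ ∀ δ, 0 < δ → δ ≤ δ₁ → (7 + 20 * κ) * δ ≤ 1 / 40 ∧ δ ≤ δ₀ ∧
      (7 + 20 * κ) * δ ≤ θ₁ ∧ (7 + 20 * κ) * δ ≤ θ₂ ∧ (7 + 20 * κ) * δ ≤ θ₃ := by
    set m := min (1 / 40) (min θ₁ (min θ₂ θ₃)) with hm
    have hm0 : 0 < m := by positivity
    have h1 : m ≤ 1 / 40 := min_le_left _ _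
    have h2 : m ≤ θ₁ := (min_le_right _ _).trans (min_le_left _ _)
    have h3 : m ≤ θ₂ := (min_le_right _ _).trans ((min_le_right _ _).trans (min_le_left _ _))
    have h4 : m ≤ θ₃ := (min_le_right _ _).trans ((min_le_right _ _).trans (min_le_right _ _))
    refine ⟨min (m / (7 + 20 * κ)) δ₀, by positivity, fun δ hδ hle => ?_⟩
    have h5 : (7 + 20 * κ) * δ ≤ m := by
      calc (7 + 20 * κ) * δ ≤ (7 + 20 * κ) * (m / (7 + 20 * κ)) :=
            mul_le_mul_of_nonneg_left (hle.trans (min_le_left _ _)) hκ1.le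
        _ = m := by field_simp
    exact ⟨h5.trans h1, hle.trans (min_le_right _ _), h5.trans h2, h5.trans h3, h5.trans h4⟩
  refine ⟨δ₁, hδ₁, fun δ hδ hδle C₂ c₂ hC₂ hc₂ => ?_⟩
  obtain ⟨hδ1, hδ2, hδ3, hδ4, hδ5⟩ := hδ₁' δ hδ hδle
  have hδ40 : δ ≤ 1 / 40 := by nlinarith
  obtain ⟨C₁, hC₁, hTD⟩ := hTD δ d hδ hδ2 hd
  have hS3 := S3_nonneg
  set K₁ : ℝ := 2 * A * C₁ + 8 * A * S3 + 8 * C₂ with hK₁
  have hK₁0 : 0 ≤ K₁ := by positivity
  set K : ℝ := 20 * K₁ with hK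
  refine ⟨δ, Real.exp (-K) / 20, hδ, by positivity, ?_⟩
  filter_upwards [hSI, hS, hTD, eventually_ge_atTop (Real.exp 1), eventually_ge_atTop 1]
    with T hSI hS hTD hTe hT1 lam hlam M e J M₀ q w hd'
  have hT0 : 0 < T := by linarith
  have hL1 : 1 ≤ Real.log T := (Real.le_log_iff_exp_le hT0).mpr hTe
  have hL0 : 0 < Real.log T := by linarith
  set k : Fin 1 → ℝ := fun _ => lam with hk'
  set α : Fin 1 → ℝ := fun _ => 0 with hα'
  have hk : ∑ j, |k j| ≤ A := by simpa [hk'] using hlam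
  have hap : ap k α = fun _ => (lam : ℂ) := by
    funext p
    rw [hk', hα']
    unfold ap
    simp
  have hap2 : (ap k fun j => 2 * α j) = fun _ => (lam : ℂ) := by
    funext p
    rw [hk', hα']
    unfold ap
    simp
  have hd'' : EKd δ κ C₂ c₂ T (ap k α) (ap k fun j => 2 * α j) M e J M₀ q w := by
    rw [hap, hap2]
    exact hd'
  clear hd'
  have hd' := hd''
  clear hd''
  have hML : (M : ℝ) ≤ T ^ (20 * κ * δ) := hd'.len
  intro N hN b hb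
  set f : ℕ → ℂ := cv e b with hf
  have hfs : ∀ m, f m ≠ 0 → 1 ≤ m ∧ m ≤ M * N := cv_supp hd'.supp hb
  have hFeq : ∀ t, dp M e t * dp N b t = dp (M * N) f t := fun t =>
    hD.1 M N e b t (supp_zero hd'.supp) (supp_zero hb)
  have hsum0 : 0 ≤ ∑ s ∈ ZI d T, ‖deriv riemannZeta s‖ ^ (2 * lam) * ‖dp N b s.im‖ ^ 2 :=
    Finset.sum_nonneg fun s _ => by positivity
  by_cases h0 : M * N = 0
  · have h1 : N2 (M * N) f = 0 := by
      rw [h0]
      unfold N2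
      simp
    rw [h1, mul_zero]
    exact hsum0
  have hMN1 : 1 ≤ M * N := Nat.one_le_iff_ne_zero.mpr h0
  have hMN' : ((M * N : ℕ) : ℝ) ≤ T ^ ((1 + 20 * κ) * δ) := by
    have e1 : (1 + 20 * κ) * δ = 20 * κ * δ + δ := by ring
    rw [e1, Real.rpow_add hT0]
    push_cast
    exact mul_le_mul hML hN (Nat.cast_nonneg _) (by positivity)
  have hMN : ((M * N : ℕ) : ℝ) ≤ T ^ ((7 + 20 * κ) * δ) :=
    hMN'.trans (Real.rpow_le_rpow_of_exponent_le hT1 (by nlinarith))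
  set X := ⌊T ^ δ⌋₊ with hX
  set F : ℝ → ℂ := dp (M * N) f with hF
  set n2 := N2 (M * N) f with hn2
  have hn20 : 0 ≤ n2 := N2_nonneg _ _
  set Λ : ℝ := Real.log T * (T * n2) with hΛ
  have hΛ0 : 0 ≤ Λ := by positivity
  -- lower and upper bounds over the isolated zeros
  have hlow : 1 / 20 * Λ ≤ ∑ s ∈ ZI d T, ‖F s.im‖ ^ 2 :=
    samp_lower hT0.le hL0.le
      (hSI (M * N) (hMN.trans (Real.rpow_le_rpow_of_exponent_le hT1 hδ3)) f)
  have hup : ∑ s ∈ ZI d T, ‖F s.im‖ ^ 2 ≤ 2 * Λ :=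
    samp_upper hT0.le hL0.le
      ((hS (M * N) (hMN.trans (Real.rpow_le_rpow_of_exponent_le hT1 hδ4)) f).2.2) d
  have hDs := (hTD (M * N) (hMN.trans (Real.rpow_le_rpow_of_exponent_le hT1 hδ5)) f).1
  simp only [pow_one] at hDs
  rw [mul_assoc C₁] at hDs
  -- the block errors
  have hq6 : ∀ j t, ‖dp M₀ (q j) t‖ ^ 6 * ‖F t‖ ^ 2 =
      ‖dp (M₀ ^ 3 * (M * N)) (cv (q j) (cv (q j) (cv (q j) f))) t‖ ^ 2 := fun j t =>
    dp_cube hD (hd'.qs j) hfs t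
  have hlen3 : ((M₀ ^ 3 * (M * N) : ℕ) : ℝ) ≤ T ^ θ₂ := by
    have e1 : ((M₀ ^ 3 * (M * N) : ℕ) : ℝ) ≤ (T ^ (2 * δ)) ^ 3 * T ^ ((1 + 20 * κ) * δ) := by
      push_cast at hMN' ⊢
      exact mul_le_mul (pow_le_pow_left₀ (Nat.cast_nonneg _) hd'.M0 3) hMN' (by positivity) (by positivity)
    refine e1.trans ?_
    rw [← Real.rpow_natCast, ← Real.rpow_mul hT0.le, ← Real.rpow_add hT0]
    refine Real.rpow_le_rpow_of_exponent_le hT1 ?_
    push_cast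
    nlinarith
  have hblk : ∀ j, ∑ s ∈ ZI d T, ‖dp M₀ (q j) s.im‖ ^ 6 * ‖F s.im‖ ^ 2 ≤
        2 * (Real.log T * (T * N2 (M₀ ^ 3 * (M * N)) (cv (q j) (cv (q j) (cv (q j) f))))) := by
    intro j
    rw [Finset.sum_congr rfl fun s _ => hq6 j s.im]
    exact samp_upper hT0.le hL0.le ((hS _ hlen3 _).2.2) d
  have hmean := hd'.mean (M * N) f hMN1 hMN' (supp_zero hfs)
  -- the error function
  set Ds : ℂ → ℝ := fun s =>
    |Real.log ‖deriv riemannZeta s‖ - Real.log (Real.log T) - EP X s.im| with hDsd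
  set g : ℂ → ℝ := fun s => 2 * A * Ds s + (4 * A * S3 + 2 * C₂) +
    ∑ j ∈ Finset.range J, 2 * w j * ‖dp M₀ (q j) s.im‖ ^ 6 with hg
  have hgF : ∀ s, g s * ‖F s.im‖ ^ 2 = 2 * A * (Ds s * ‖F s.im‖ ^ 2) +
      (4 * A * S3 + 2 * C₂) * ‖F s.im‖ ^ 2 +
      ∑ j ∈ Finset.range J, 2 * w j * (‖dp M₀ (q j) s.im‖ ^ 6 * ‖F s.im‖ ^ 2) := by
    intro s
    simp only [hg]
    rw [add_mul, add_mul, Finset.sum_mul]
    congr 1
    · ring
    · exact Finset.sum_congr rfl fun j _ => by ring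
  have hint : ∑ s ∈ ZI d T, g s * ‖F s.im‖ ^ 2 ≤ K₁ * Λ := by
    rw [Finset.sum_congr rfl fun s _ => hgF s, Finset.sum_add_distrib, Finset.sum_add_distrib,
      ← Finset.mul_sum, ← Finset.mul_sum, Finset.sum_comm]
    have b1 : 2 * A * ∑ s ∈ ZI d T, Ds s * ‖F s.im‖ ^ 2 ≤ 2 * A * (C₁ * Λ) := by
      refine mul_le_mul_of_nonneg_left ?_ (by positivity)
      rw [hΛ]
      exact hDs
    have b2 : (4 * A * S3 + 2 * C₂) * ∑ s ∈ ZI d T, ‖F s.im‖ ^ 2 ≤ (4 * A * S3 + 2 * C₂) * (2 * Λ) :=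
      mul_le_mul_of_nonneg_left hup (by positivity)
    have b3 : ∑ j ∈ Finset.range J, ∑ s ∈ ZI d T, 2 * w j *
        (‖dp M₀ (q j) s.im‖ ^ 6 * ‖F s.im‖ ^ 2) ≤ 4 * (Real.log T * T) * (C₂ * n2) := by
      calc ∑ j ∈ Finset.range J, ∑ s ∈ ZI d T, 2 * w j * (‖dp M₀ (q j) s.im‖ ^ 6 * ‖F s.im‖ ^ 2)
          ≤ ∑ j ∈ Finset.range J, 4 * (Real.log T * T) * (w j *
              N2 (M₀ ^ 3 * (M * N)) (cv (q j) (cv (q j) (cv (q j) f)))) := by
            refine Finset.sum_le_sum fun j _ => ?_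
            rw [← Finset.mul_sum]
            have := mul_le_mul_of_nonneg_left (hblk j) (by have := hd'.wn j; linarith : 0 ≤ 2 * w j)
            refine this.trans (le_of_eq ?_)
            ring
        _ = 4 * (Real.log T * T) * ∑ j ∈ Finset.range J, w j *
              N2 (M₀ ^ 3 * (M * N)) (cv (q j) (cv (q j) (cv (q j) f))) := by rw [Finset.mul_sum]
        _ ≤ 4 * (Real.log T * T) * (C₂ * n2) := mul_le_mul_of_nonneg_left hmean (by positivity)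
    rw [hK₁]
    have b4 : 4 * (Real.log T * T) * (C₂ * n2) = 4 * C₂ * Λ := by rw [hΛ]; ring
    rw [b4] at b3
    linarith [(by ring : 2 * A * (C₁ * Λ) + (4 * A * S3 + 2 * C₂) * (2 * Λ) +
      4 * C₂ * Λ = (2 * A * C₁ + 8 * A * S3 + 8 * C₂) * Λ)]
  -- the pointwise inequality
  have hpt : ∀ s ∈ ZI d T, Real.log T ^ (2 * lam) * (Real.exp (-K) *
      ((1 + K) * ‖F s.im‖ ^ 2 - g s * ‖F s.im‖ ^ 2)) ≤
      ‖deriv riemannZeta s‖ ^ (2 * lam) * ‖dp N b s.im‖ ^ 2 := by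
    intro s hs
    have hnn : 0 ≤ ‖deriv riemannZeta s‖ ^ (2 * lam) * ‖dp N b s.im‖ ^ 2 := by positivity
    by_cases hF0 : F s.im = 0
    · rw [hF0]
      simpa using hnn
    have hEB := hFeq s.im
    have hE0 : dp M e s.im ≠ 0 := fun h => hF0 (by rw [← hEB, h, zero_mul])
    obtain ⟨-, hre, hmz⟩ := mem_ZI hs
    have hder : 0 < ‖deriv riemannZeta s‖ := norm_pos_iff.mpr (deriv_ne hre hmz)
    set h : ℝ := Real.log ‖deriv riemannZeta s‖ * (2 * lam) - Real.log (Real.log T) * (2 * lam) -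
      2 * Real.log ‖dp M e s.im‖ with hh
    have hEsq : ‖dp M e s.im‖ ^ 2 = Real.exp (2 * Real.log ‖dp M e s.im‖) := by
      rw [two_mul, Real.exp_add, Real.exp_log (norm_pos_iff.mpr hE0), sq]
    have hrhs : ‖deriv riemannZeta s‖ ^ (2 * lam) * ‖dp N b s.im‖ ^ 2 =
        Real.log T ^ (2 * lam) * (Real.exp h * ‖F s.im‖ ^ 2) := by
      rw [← hEB, norm_mul, mul_pow, hh, Real.exp_sub, ← hEsq, Real.exp_sub,
        Real.rpow_def_of_pos hder, Real.rpow_def_of_pos hL0]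
      have h8 : ‖dp M e s.im‖ ^ 2 ≠ 0 := pow_ne_zero 2 (norm_ne_zero_iff.mpr hE0)
      have h9 : Real.exp (Real.log (Real.log T) * (2 * lam)) ≠ 0 := (Real.exp_pos _).ne'
      field_simp
    have hgh : -g s ≤ h := by
      have u1 := hd'.up s.im hE0
      have u2 := abs_le.mp (EP_PA k α hk X s.im)
      have u3 : k 0 = lam := rfl
      have u5 : α 0 = 0 := rfl
      rw [Fin.sum_univ_one, u3, u5, add_zero] at u2
      have u4 : ∑ j ∈ Finset.range J, 2 * w j * ‖dp M₀ (q j) s.im‖ ^ 6 =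
          2 * ∑ j ∈ Finset.range J, w j * ‖dp M₀ (q j) s.im‖ ^ 6 := by
        rw [Finset.mul_sum]
        exact Finset.sum_congr rfl fun j _ => by ring
      have v1 : -(|lam| * Ds s) ≤
          lam * (Real.log ‖deriv riemannZeta s‖ - Real.log (Real.log T) - EP X s.im) := by
        rw [hDsd, ← abs_mul]
        exact neg_abs_le _
      have v2 : |lam| * Ds s ≤ A * Ds s := mul_le_mul_of_nonneg_right hlam (abs_nonneg _)
      simp only [hg, hh]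
      rw [u4]
      linarith [u2.1]
    have h4 := exp_tangent (K := K) hgh
    rw [hrhs]
    refine mul_le_mul_of_nonneg_left ?_ (by positivity)
    calc Real.exp (-K) * ((1 + K) * ‖F s.im‖ ^ 2 - g s * ‖F s.im‖ ^ 2)
        = Real.exp (-K) * (1 + K - g s) * ‖F s.im‖ ^ 2 := by ring
      _ ≤ Real.exp h * ‖F s.im‖ ^ 2 := mul_le_mul_of_nonneg_right h4 (by positivity)
  refine le_trans ?_ (Finset.sum_le_sum hpt)
  rw [← Finset.mul_sum, ← Finset.mul_sum, Finset.sum_sub_distrib, ← Finset.mul_sum]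
  set I₀ := ∑ s ∈ ZI d T, ‖F s.im‖ ^ 2 with hI₀
  have h5 : K₁ * Λ ≤ K * I₀ := by
    rw [hK]
    nlinarith
  have h6 : I₀ ≤ (1 + K) * I₀ - ∑ s ∈ ZI d T, g s * ‖F s.im‖ ^ 2 := by linarith
  have e5 : Real.log T ^ (1 + 2 * lam) = Real.log T * Real.log T ^ (2 * lam) := by
    rw [Real.rpow_add hL0, Real.rpow_one]
  calc Real.exp (-K) / 20 * T * Real.log T ^ (1 + 2 * lam) * n2
      = Real.log T ^ (2 * lam) * (Real.exp (-K) * (1 / 20 * Λ)) := by
        rw [e5, hΛ]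
        ring
    _ ≤ Real.log T ^ (2 * lam) * (Real.exp (-K) * I₀) :=
        mul_le_mul_of_nonneg_left (mul_le_mul_of_nonneg_left hlow (Real.exp_pos _).le) (by positivity)
    _ ≤ _ := mul_le_mul_of_nonneg_left (mul_le_mul_of_nonneg_left h6 (Real.exp_pos _).le) (by positivity)

end Pool.Agent.Q210.UM8
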