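import Pool.Agent.Q97.UM.Stm14

set_option autoImplicit false

/-!
Project UM8 (helper97): job PMT, relative moments of a block on a long range.
-/

namespace Pool.Agent.Q210.UM8

open Filter Topology MeasureTheory Complex
open Pool.Agent.Q97.UM

noncomputable section

theorem cv_len (u v : ℕ → ℂ) (K M : ℕ) (hu : ∀ n, K < n → u n = 0) (hv : ∀ n, M < n → v n = 0) :
    ∀ n, K * M < n → cv u v n = 0 := by
  intro n hn
  unfold cv
  apply Finset.sum_eq_zero
  intro b hb
  rw [Nat.mem_divisorsAntidiagonal] at hb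
  rcases Nat.lt_or_ge K b.1 with h | h
  · rw [hu _ h, zero_mul]
  · rcases Nat.lt_or_ge M b.2 with h' | h'
    · rw [hv _ h', mul_zero]
    · exfalso
      have := Nat.mul_le_mul h h'
      omega

theorem floorXB (D : ℝ) (j : ℕ) (hD : 0 ≤ D) : 1 ≤ ⌊XB D j⌋₊ := by
  have h : (0 : ℝ) < XB D j := Real.exp_pos _
  rw [Nat.le_floor_iff h.le]
  unfold XB
  push_cast
  apply Real.one_le_exp
  positivity

theorem qb_len (D : ℝ) (a a2 : ℕ → ℂ) (j : ℕ) (hD : 0 ≤ D) :
    ∀ n, ⌊XB D j⌋₊ ^ 2 < n → qb D a a2 j n = 0 := by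
  intro n hn
  have h2 := floorXB D j hD
  unfold qb
  rw [if_neg, if_neg, add_zero]
  · rintro ⟨h3, h4⟩
    unfold PB at h3
    rw [Finset.mem_filter, Finset.mem_Icc] at h3
    have := Nat.pow_le_pow_left h3.1.2 2
    omega
  · intro h3
    unfold PB at h3
    rw [Finset.mem_filter, Finset.mem_Icc] at h3
    nlinarith [h3.1.2]

theorem log_K (D : ℝ) (j : ℕ) (hD : 0 ≤ D) :
    Real.log ((⌊XB D j⌋₊ ^ 2 : ℕ) : ℝ) ≤ 2 * D * Real.exp (-(j : ℝ)) := by
  have h : (0 : ℝ) < XB D j := Real.exp_pos _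
  have h1 : (⌊XB D j⌋₊ : ℝ) ≤ XB D j := Nat.floor_le h.le
  have h2 : (1 : ℝ) ≤ (⌊XB D j⌋₊ : ℝ) := by exact_mod_cast floorXB D j hD
  push_cast
  rw [Real.log_pow]
  have h3 : Real.log (⌊XB D j⌋₊ : ℝ) ≤ D * Real.exp (-(j : ℝ)) := by
    rw [Real.log_le_iff_le_exp (by linarith)]
    exact h1
  push_cast
  linarith

/-- iterated convolution -/
def it (q c : ℕ → ℂ) : ℕ → (ℕ → ℂ)
  | 0 => c
  | (s + 1) => cv q (it q c s)

theorem it_len (q c : ℕ → ℂ) (K M : ℕ) (hq : ∀ n, K < n → q n = 0) (hc : ∀ n, M < n → c n = 0)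
    (s : ℕ) : ∀ n, K ^ s * M < n → it q c s n = 0 := by
  induction s with
  | zero =>
    intro n hn
    rw [pow_zero, one_mul] at hn
    exact hc n hn
  | succ s ih =>
    intro n hn
    rw [pow_succ, mul_comm (K ^ s) K, mul_assoc] at hn
    exact cv_len q _ K _ hq ih n hn

theorem dp_it (hd : S_DPM) (q c : ℕ → ℂ) (K M : ℕ) (hq : ∀ n, K < n → q n = 0)
    (hc : ∀ n, M < n → c n = 0) (t : ℝ) (s : ℕ) :
    dp (K ^ s * M) (it q c s) t = dp K q t ^ s * dp M c t := by
  induction s with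
  | zero =>
    rw [pow_zero, pow_zero, one_mul, one_mul]
    rfl
  | succ s ih =>
    have h := hd.1 K (K ^ s * M) q (it q c s) t hq (it_len q c K M hq hc s)
    rw [ih] at h
    rw [pow_succ, pow_succ, mul_comm (K ^ s) K, mul_assoc K, mul_comm (dp K q t ^ s), mul_assoc, h]
    rfl

theorem t_PMT : J_PMT := by
  intro hBM hQM hd hMVL
  obtain ⟨C, hC, hQ⟩ := hQM hBM
  refine ⟨2 * C, by linarith, ?_⟩
  intro A D hA hD a a2 ha ha2 M c hM hc j r
  have hD0 : 0 ≤ D := by linarith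
  obtain ⟨K, hK⟩ : ∃ K, K = ⌊XB D j⌋₊ ^ 2 := ⟨_, rfl⟩
  obtain ⟨q, hq⟩ : ∃ q, q = qb D a a2 j := ⟨_, rfl⟩
  have hqK : ∀ n, K < n → q n = 0 := by
    rw [hK, hq]
    exact qb_len D a a2 j hD0
  have hcM : ∀ n, M < n → c n = 0 := by
    intro n hn
    by_contra h
    have := (hc n h).2
    omega
  have hK1 : 1 ≤ K := by
    rw [hK]
    exact Nat.one_le_pow _ _ (floorXB D j hD0)
  have hK1' : (1 : ℝ) ≤ K := by exact_mod_cast hK1
  have hM' : (1 : ℝ) ≤ M := by exact_mod_cast hM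
  have hlK : Real.log (K : ℝ) ≤ 2 * D * Real.exp (-(j : ℝ)) := by
    rw [hK]
    exact log_K D j hD0
  have hlM : 0 ≤ Real.log (M : ℝ) := Real.log_nonneg hM'
  have hN0 : ∀ (X : ℕ) (b : ℕ → ℂ), 0 ≤ N2 X b := by
    intro X b
    unfold N2
    positivity
  obtain ⟨Y, hY⟩ : ∃ Y : ℝ, Y = Real.exp j * Real.log M / D + r + 1 := ⟨_, rfl⟩
  have hY0 : 0 ≤ Y := by
    rw [hY]
    positivity
  have hB0 : 0 ≤ 2 * C * A ^ 2 * Y := by positivity
  -- the induction
  have key : ∀ s : ℕ, s ≤ r → N2 (K ^ s * M) (it q c s) ≤ (2 * C * A ^ 2 * Y) ^ s * N2 M c := by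
    intro s
    induction s with
    | zero =>
      intro _
      rw [pow_zero, pow_zero, one_mul, one_mul]
      exact le_rfl
    | succ s ih =>
      intro hs
      have h1 := ih (by omega)
      have hM1 : 1 ≤ K ^ s * M := Nat.mul_pos (Nat.pow_pos hK1) hM
      have h2 := hQ D A j K (K ^ s * M) a a2 (it q c s) hD (by linarith) hM1 (by rw [hK]) ha ha2
        (it_len q c K M hqK hcM s)
      rw [← hq] at h2
      have e1 : K ^ (s + 1) * M = K * (K ^ s * M) := by ring
      rw [e1]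
      have h3 : Real.exp (j : ℝ) * Real.log ((K : ℝ) * ((K ^ s * M : ℕ) : ℝ)) / D ≤ 2 * Y := by
        have h4 : Real.log ((K : ℝ) * ((K ^ s * M : ℕ) : ℝ)) =
            ((s : ℝ) + 1) * Real.log K + Real.log M := by
          push_cast
          rw [← mul_assoc, ← pow_succ', Real.log_mul (by positivity) (by positivity), Real.log_pow]
          push_cast
          ring
        rw [h4]
        have h5 : ((s : ℝ) + 1) * Real.log K ≤ ((s : ℝ) + 1) * (2 * D * Real.exp (-(j : ℝ))) :=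
          mul_le_mul_of_nonneg_left hlK (by positivity)
        have h6 : Real.exp (j : ℝ) * (((s : ℝ) + 1) * (2 * D * Real.exp (-(j : ℝ)))) =
            2 * ((s : ℝ) + 1) * D := by
          have : Real.exp (j : ℝ) * Real.exp (-(j : ℝ)) = 1 := by
            rw [← Real.exp_add, add_neg_cancel, Real.exp_zero]
          linear_combination 2 * ((s : ℝ) + 1) * D * this
        have h7 : ((s : ℝ) + 1) ≤ r := by exact_mod_cast hs
        have hE : 0 < Real.exp (j : ℝ) := Real.exp_pos _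
        rw [div_le_iff₀ (by linarith)]
        have h8 : Real.exp j * Real.log M / D * D = Real.exp j * Real.log M := by
          field_simp
        have h9 : 0 ≤ Real.exp j * Real.log M := by positivity
        calc Real.exp (j : ℝ) * (((s : ℝ) + 1) * Real.log K + Real.log M)
            ≤ Real.exp (j : ℝ) * (((s : ℝ) + 1) * (2 * D * Real.exp (-(j : ℝ))) + Real.log M) :=
              mul_le_mul_of_nonneg_left (by linarith) hE.le
          _ = 2 * ((s : ℝ) + 1) * D + Real.exp j * Real.log M := by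
              rw [mul_add, h6]
          _ ≤ 2 * (r : ℝ) * D + 2 * (Real.exp j * Real.log M / D * D) + 2 * D := by
              rw [h8]
              nlinarith
          _ = 2 * Y * D := by
              rw [hY]
              ring
      calc N2 (K * (K ^ s * M)) (it q c (s + 1)) ≤
            C * A ^ 2 * (Real.exp (j : ℝ) * Real.log ((K : ℝ) * ((K ^ s * M : ℕ) : ℝ)) / D) *
              N2 (K ^ s * M) (it q c s) := h2
        _ ≤ C * A ^ 2 * (2 * Y) * N2 (K ^ s * M) (it q c s) := by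
            apply mul_le_mul_of_nonneg_right _ (hN0 _ _)
            exact mul_le_mul_of_nonneg_left h3 (by positivity)
        _ = (2 * C * A ^ 2 * Y) * N2 (K ^ s * M) (it q c s) := by ring
        _ ≤ (2 * C * A ^ 2 * Y) * ((2 * C * A ^ 2 * Y) ^ s * N2 M c) :=
            mul_le_mul_of_nonneg_left h1 hB0
        _ = _ := by ring
  have hr := key r le_rfl
  unfold MB
  filter_upwards [eventually_ge_atTop 16, eventually_ge_atTop (((K ^ r * M : ℕ) : ℝ) ^ 4)]
    with V hV hV4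
  have h1 : (((K ^ r * M : ℕ) : ℝ)) ≤ V ^ (1 / 4 : ℝ) := by
    have h2 : (0 : ℝ) ≤ ((K ^ r * M : ℕ) : ℝ) := Nat.cast_nonneg _
    have h3 := Real.rpow_le_rpow (by positivity) hV4 (by norm_num : (0 : ℝ) ≤ 1 / 4)
    rw [← Real.rpow_natCast, ← Real.rpow_mul h2] at h3
    norm_num at h3 ⊢
    exact h3
  have h2 := (hMVL V hV (K ^ r * M) h1 (it q c r)).2
  have h3 : ∀ t : ℝ, ‖dp M c t‖ ^ 2 * ‖zf D a a2 j t‖ ^ (2 * r) =
      ‖dp (K ^ r * M) (it q c r) t‖ ^ 2 := by
    intro t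
    rw [dp_it hd q c K M hqK hcM t r, norm_mul, norm_pow, mul_pow, ← pow_mul, mul_comm r 2]
    unfold zf
    rw [← hK, ← hq, mul_comm]
  simp only [h3]
  refine h2.trans ?_
  rw [← hY]
  calc 2 * V * N2 (K ^ r * M) (it q c r) ≤ 2 * V * ((2 * C * A ^ 2 * Y) ^ r * N2 M c) :=
        mul_le_mul_of_nonneg_left hr (by linarith)
    _ = _ := by ring

end

end Pool.Agent.Q210.UM8
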