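import Pool.Agent.Q97.UM.Stm15
import Pool.Agent.Q98.UM.Lem
import Pool.Agent.Q14.UM.EK
import Pool.Agent.Q178.UM.PR

set_option autoImplicit false

/-!
Project UM8 (helper97): job TSC, the twisted second moment against a mean value.
-/

namespace Pool.Agent.Q210.UM8

open Filter Topology MeasureTheory Complex
open Pool.Agent.Q97.UM
open Pool.Agent.Q98.UM (S3 S3_nonneg EP_approx norm_line_le norm_pow_line)

noncomputable section

/-- the completely multiplicative function `n^{-1/2-it}` -/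
def ft (t : ℝ) : ℕ →*₀ ℂ where
  toFun n := (n : ℂ) ^ (-(1 / 2 + t * I))
  map_zero' := by
    rw [Nat.cast_zero, Complex.zero_cpow]
    intro h
    have := congrArg Complex.re h
    norm_num at this
  map_one' := by
    rw [Nat.cast_one, Complex.one_cpow]
  map_mul' m n := by
    rw [Nat.cast_mul, Complex.natCast_mul_natCast_cpow]

theorem ft_apply (t : ℝ) (n : ℕ) : ft t n = (n : ℂ) ^ (-(1 / 2 + t * I)) := rfl

theorem norm_ft (t : ℝ) {n : ℕ} (hn : 0 < n) : ‖ft t n‖ = (n : ℝ) ^ (-(1 / 2) : ℝ) := by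
  rw [ft_apply, Complex.norm_natCast_cpow_of_pos hn]
  congr 1
  simp

/-- the Euler product -/
def Pi' (X : ℕ) (t : ℝ) : ℂ := ∏ p ∈ X.primesBelow, (1 - (p : ℂ) ^ (-(1 / 2 + t * I)))⁻¹

theorem euler (X : ℕ) (t : ℝ) : Summable (fun m : X.smoothNumbers => ‖ft t m‖) ∧
    HasSum (fun m : X.smoothNumbers => ft t m) (Pi' X t) := by
  have h := EulerProduct.summable_and_hasSum_smoothNumbers_prod_primesBelow_geometric
    (f := (ft t : ℕ →* ℂ)) (fun {p} hp => by
      show ‖ft t p‖ < 1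
      rw [ft_apply]
      have := norm_line_le hp.two_le t
      linarith) X
  exact h

open Classical in
/-- the finite sets of smooth numbers -/
def sY (X Y : ℕ) : Finset X.smoothNumbers := (Finset.Icc 1 Y).subtype (fun n => n ∈ X.smoothNumbers)

theorem mem_sY {X Y : ℕ} {m : X.smoothNumbers} : m ∈ sY X Y ↔ (m : ℕ) ≤ Y := by
  classical
  unfold sY
  rw [Finset.mem_subtype, Finset.mem_Icc]
  have : (m : ℕ) ≠ 0 := Nat.ne_zero_of_mem_smoothNumbers m.2
  omega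

theorem sY_tendsto (X : ℕ) : Tendsto (fun Y => sY X Y) atTop atTop := by
  apply tendsto_atTop_finset_of_monotone
  · intro Y Y' h m hm
    rw [mem_sY] at hm ⊢
    exact hm.trans h
  · intro m
    exact ⟨m, mem_sY.2 le_rfl⟩

open Classical in
/-- the smooth numbers up to `Y` -/
def uY (X Y n : ℕ) : ℂ := if n ∈ X.smoothNumbers ∧ n ≤ Y then 1 else 0

theorem dp_uY (X Y : ℕ) (t : ℝ) : dp Y (uY X Y) t = ∑ m ∈ sY X Y, ft t m := by
  classical
  unfold dp sY
  rw [Finset.sum_subtype_eq_sum_filter (s := Finset.Icc 1 Y) (p := fun n => n ∈ X.smoothNumbers) (fun n => ft t n),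
    Finset.sum_filter]
  refine Finset.sum_congr rfl fun n hn => ?_
  have hn2 := (Finset.mem_Icc.1 hn).2
  unfold uY
  rw [ft_apply]
  by_cases h : n ∈ X.smoothNumbers
  · rw [if_pos ⟨h, hn2⟩, if_pos h, one_mul]
  · rw [if_neg (fun h' => h h'.1), if_neg h, zero_mul]

/-- the approximation, uniform in `t` -/
theorem approx (X : ℕ) {ε : ℝ} (hε : 0 < ε) : ∀ᶠ Y in atTop, ∀ t : ℝ,
    ‖dp Y (uY X Y) t - Pi' X t‖ ≤ ε := by
  obtain ⟨g, hg⟩ : ∃ g : X.smoothNumbers → ℝ,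
    g = fun m : X.smoothNumbers => ((m : ℕ) : ℝ) ^ (-(1 / 2) : ℝ) := ⟨_, rfl⟩
  have hgt : ∀ (t : ℝ) (m : X.smoothNumbers), ‖ft t m‖ = g m := by
    intro t m
    rw [hg, norm_ft t (Nat.pos_of_ne_zero (Nat.ne_zero_of_mem_smoothNumbers m.2))]
  have hs : Summable g := by
    have := (euler X 0).1
    simp only [hgt] at this
    exact this
  have hg0 : ∀ m, 0 ≤ g m := by
    intro m
    rw [← hgt 0]
    exact norm_nonneg _
  have h1 : Tendsto (fun Y => ∑ m ∈ sY X Y, g m) atTop (𝓝 (∑' m, g m)) :=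
    hs.hasSum.comp (sY_tendsto X)
  have h2 : ∀ᶠ Y in atTop, (∑' m, g m) - ∑ m ∈ sY X Y, g m < ε := by
    have h3 := (tendsto_const_nhds (x := ∑' m, g m)).sub h1
    rw [sub_self] at h3
    exact h3.eventually_lt_const hε
  filter_upwards [h2] with Y hY t
  refine le_trans ?_ hY.le
  rw [dp_uY]
  have h4 : Tendsto (fun s : Finset X.smoothNumbers => ‖(∑ m ∈ sY X Y, ft t m) - ∑ m ∈ s, ft t m‖) atTop
      (𝓝 ‖(∑ m ∈ sY X Y, ft t m) - Pi' X t‖) :=
    (tendsto_const_nhds.sub (euler X t).2).norm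
  refine le_of_tendsto h4 ?_
  filter_upwards [eventually_ge_atTop (sY X Y)] with s hs'
  classical
  rw [norm_sub_rev, ← Finset.sum_sdiff hs', add_sub_cancel_right]
  refine (norm_sum_le _ _).trans ?_
  simp only [hgt]
  have h5 := hs.sum_le_tsum s (fun m _ => hg0 m)
  rw [← Finset.sum_sdiff hs'] at h5
  linarith

/-- the Euler product and the exponential -/
theorem Pi_le (D : ℝ) (hD : 1 ≤ D) (t : ℝ) : ‖Pi' (⌊Real.exp D⌋₊ + 1) t‖ ≤ Real.exp (2 * S3) *
    ‖cexp (∑ l ∈ Finset.range (JB D), zf D (fun _ => 1) (fun _ => 1) l t)‖ := by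
  have h1 : ∑ l ∈ Finset.range (JB D), zf D (fun _ => 1) (fun _ => 1) l t =
      PA ⌊Real.exp D⌋₊ (fun _ => 1) (fun _ => 1) t :=
    Pool.Agent.Q14.UM.sum_zj D (fun _ => 1) (fun _ => 1) hD t
  obtain ⟨Z, hZ⟩ : ∃ Z : ℕ, Z = ⌊Real.exp D⌋₊ := ⟨_, rfl⟩
  rw [h1, ← hZ, Complex.norm_exp, ← Real.exp_add]
  have h2 : ‖Pi' (Z + 1) t‖ = Real.exp (EP Z t) := by
    unfold Pi' EP
    have h3 : (Z + 1).primesBelow = (Finset.Icc 1 Z).filter Nat.Prime := by
      ext p
      rw [Nat.mem_primesBelow, Finset.mem_filter, Finset.mem_Icc]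
      constructor
      · rintro ⟨h4, h5⟩
        exact ⟨⟨h5.one_le, by omega⟩, h5⟩
      · rintro ⟨⟨h4, h5⟩, h6⟩
        exact ⟨by omega, h6⟩
    rw [h3, norm_prod, ← Finset.sum_neg_distrib, Real.exp_sum]
    refine Finset.prod_congr rfl fun p hp => ?_
    have hp2 := (Finset.mem_filter.1 hp).2.two_le
    have h4 : 0 < ‖1 - (p : ℂ) ^ (-(1 / 2 + t * I))‖ := by
      have h5 := norm_line_le hp2 t
      have h6 := norm_sub_norm_le (1 : ℂ) ((p : ℂ) ^ (-(1 / 2 + t * I)))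
      rw [norm_one] at h6
      linarith
    rw [norm_inv, Real.exp_neg, Real.exp_log h4]
  rw [h2]
  apply Real.exp_le_exp.2
  have h3 := (abs_le.1 (EP_approx Z t)).2
  have h4 : (PA Z (fun _ => 1) (fun _ => 1) t).re = ∑ p ∈ (Finset.Icc 1 Z).filter Nat.Prime,
      ((p : ℂ) ^ (-(1 / 2 + t * I)) + ((p : ℂ) ^ (-(1 / 2 + t * I))) ^ 2 / 2).re := by
    unfold PA
    rw [Complex.re_sum]
    refine Finset.sum_congr rfl fun p hp => ?_
    congr 1
    rw [← Complex.cpow_nat_mul]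
    have : ((2 : ℕ) : ℂ) * -(1 / 2 + (t : ℂ) * I) = -(1 + 2 * t * I) := by
      push_cast
      ring
    rw [this]
    ring
  rw [h4]
  linarith

/-- the convolution at small smooth numbers -/
theorem cv_uY (X Y : ℕ) (c : ℕ → ℂ) {n : ℕ} (hn : n ∈ X.smoothNumbers) (hY : n ≤ Y) :
    cv (uY X Y) c n = ∑ h ∈ n.divisors, c h := by
  unfold cv
  rw [Nat.sum_divisorsAntidiagonal' (fun a b => uY X Y a * c b)]
  refine Finset.sum_congr rfl fun i hi => ?_
  rw [Nat.mem_divisors] at hi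
  have h1 : n / i ∣ n := Nat.div_dvd_of_dvd hi.1
  have h2 : n / i ∈ X.smoothNumbers := Nat.mem_smoothNumbers_of_dvd hn h1
  have h3 : n / i ≤ Y := (Nat.div_le_self n i).trans hY
  unfold uY
  rw [if_pos ⟨h2, h3⟩, one_mul]

theorem uY_len (X Y : ℕ) : ∀ n, Y < n → uY X Y n = 0 := by
  intro n hn
  unfold uY
  rw [if_neg]
  rintro ⟨-, h⟩
  omega

/-- the partial sums -/
theorem part (hd : S_DPM) (hMVL : S_MVL) (D : ℝ) (hD : 1 ≤ D) (M : ℕ) (hM : 1 ≤ M) (c : ℕ → ℂ)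
    (hc : ∀ n, M < n → c n = 0) (S : ℝ)
    (hS : MB (fun t => ‖cexp (∑ l ∈ Finset.range (JB D), zf D (fun _ => 1) (fun _ => 1) l t)‖ ^ 2 *
      ‖dp M c t‖ ^ 2) S) (F : Finset (⌊Real.exp D⌋₊ + 1).smoothNumbers) :
    ∑ n ∈ F, ‖∑ h ∈ (n : ℕ).divisors, c h‖ ^ 2 / (n : ℕ) ≤ 4 * Real.exp (2 * S3) ^ 2 * S := by
  obtain ⟨X, hX⟩ : ∃ X : ℕ, X = ⌊Real.exp D⌋₊ + 1 := ⟨_, rfl⟩
  have hN0 : 0 ≤ N2 M c := by
    unfold N2
    positivity
  apply le_of_forall_pos_le_add
  intro η hη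
  obtain ⟨ε, hε, hεη⟩ : ∃ ε : ℝ, 0 < ε ∧ 8 * ε ^ 2 * N2 M c ≤ η := by
    refine ⟨Real.sqrt (η / (8 * (N2 M c + 1))), by positivity, ?_⟩
    rw [Real.sq_sqrt (by positivity)]
    rw [show 8 * (η / (8 * (N2 M c + 1))) * N2 M c = η * (N2 M c / (N2 M c + 1)) by field_simp]
    have : N2 M c / (N2 M c + 1) ≤ 1 := by
      rw [div_le_one (by positivity)]
      linarith
    calc η * (N2 M c / (N2 M c + 1)) ≤ η * 1 := mul_le_mul_of_nonneg_left this hη.le
      _ = η := mul_one η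
  obtain ⟨Y, hYa, hYF, hY1⟩ := ((approx (⌊Real.exp D⌋₊ + 1) hε).and
    ((eventually_ge_atTop (F.sup fun m => (m : ℕ))).and (eventually_ge_atTop 1))).exists
  have hFY : ∀ m ∈ F, (m : ℕ) ≤ Y := fun m hm =>
    (Finset.le_sup (f := fun m : (⌊Real.exp D⌋₊ + 1).smoothNumbers => (m : ℕ)) hm).trans hYF
  rw [← hX] at hYa
  -- lower bound by the mean square
  have h1 : ∑ n ∈ F, ‖∑ h ∈ (n : ℕ).divisors, c h‖ ^ 2 / (n : ℕ) ≤ N2 (Y * M) (cv (uY X Y) c) := by
    classical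
    unfold N2
    have h2 : ∑ n ∈ F, ‖∑ h ∈ (n : ℕ).divisors, c h‖ ^ 2 / ((n : ℕ) : ℝ) =
        ∑ n ∈ F.image (fun m : (⌊Real.exp D⌋₊ + 1).smoothNumbers => (m : ℕ)),
          ‖cv (uY X Y) c n‖ ^ 2 / (n : ℝ) := by
      rw [Finset.sum_image (fun a _ b _ h => Subtype.ext h)]
      refine Finset.sum_congr rfl fun m hm => ?_
      rw [cv_uY X Y c (by rw [hX]; exact m.2) (hFY m hm)]
    rw [h2]
    apply Finset.sum_le_sum_of_subset_of_nonneg
    · intro n hn
      rw [Finset.mem_image] at hn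
      obtain ⟨m, hm, rfl⟩ := hn
      rw [Finset.mem_Icc]
      have h3 : (m : ℕ) ≠ 0 := Nat.ne_zero_of_mem_smoothNumbers m.2
      refine ⟨by omega, (hFY m hm).trans ?_⟩
      exact Nat.le_mul_of_pos_right Y hM
    · intro n _ _
      positivity
  refine h1.trans ?_
  -- the mean value
  unfold MB at hS
  obtain ⟨V, hV1, hV2, hV3, hV4⟩ := (hS.and ((eventually_ge_atTop (16 : ℝ)).and
    ((eventually_ge_atTop (((Y * M : ℕ) : ℝ) ^ 4)).and (eventually_ge_atTop ((M : ℝ) ^ 4))))).exists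
  have hV0 : 0 < V := by linarith
  have hroot : ∀ A : ℝ, 0 ≤ A → A ^ 4 ≤ V → A ≤ V ^ (1 / 4 : ℝ) := by
    intro A hA h
    have h3 := Real.rpow_le_rpow (by positivity) h (by norm_num : (0 : ℝ) ≤ 1 / 4)
    rw [← Real.rpow_natCast, ← Real.rpow_mul hA] at h3
    norm_num at h3 ⊢
    exact h3
  have h2 := (hMVL V hV2 (Y * M) (hroot _ (Nat.cast_nonneg _) hV3) (cv (uY X Y) c)).1
  have h3 := (hMVL V hV2 M (hroot _ (Nat.cast_nonneg _) hV4) c).2
  have hcont : Continuous (fun t : ℝ => cexp (∑ l ∈ Finset.range (JB D),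
      zf D (fun _ => 1) (fun _ => 1) l t)) := by
    apply Continuous.cexp
    apply continuous_finsetSum
    intro l _
    exact (hd.2.2 (⌊XB D l⌋₊ ^ 2) (qb D (fun _ => 1) (fun _ => 1) l) 0).2
  have hdc : Continuous (dp M c) := (hd.2.2 M c 0).2
  have h4 : ∫ t in V..(2 * V), ‖dp (Y * M) (cv (uY X Y) c) t‖ ^ 2 ≤
      ∫ t in V..(2 * V), (2 * Real.exp (2 * S3) ^ 2 *
        (‖cexp (∑ l ∈ Finset.range (JB D), zf D (fun _ => 1) (fun _ => 1) l t)‖ ^ 2 * ‖dp M c t‖ ^ 2) +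
        2 * ε ^ 2 * ‖dp M c t‖ ^ 2) := by
    apply intervalIntegral.integral_mono_on (by linarith)
    · exact ((hd.2.2 (Y * M) (cv (uY X Y) c) 0).2.norm.pow 2).intervalIntegrable _ _
    · apply Continuous.intervalIntegrable
      fun_prop
    · intro t _
      rw [← hd.1 Y M (uY X Y) c t (uY_len X Y) hc, norm_mul, mul_pow, ← mul_assoc, ← add_mul]
      apply mul_le_mul_of_nonneg_right _ (sq_nonneg _)
      obtain ⟨E, hE⟩ : ∃ E : ℝ, E = ‖cexp (∑ l ∈ Finset.range (JB D),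
        zf D (fun _ => 1) (fun _ => 1) l t)‖ := ⟨_, rfl⟩
      have h5 : ‖Pi' X t‖ ≤ Real.exp (2 * S3) * E := by
        rw [hX, hE]
        exact Pi_le D hD t
      rw [← hE]
      have h6 : ‖dp Y (uY X Y) t‖ ≤ Real.exp (2 * S3) * E + ε := by
        have h7 : dp Y (uY X Y) t = Pi' X t + (dp Y (uY X Y) t - Pi' X t) := by ring
        rw [h7]
        exact (norm_add_le _ _).trans (add_le_add h5 (hYa t))
      calc ‖dp Y (uY X Y) t‖ ^ 2 ≤ (Real.exp (2 * S3) * E + ε) ^ 2 :=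
            pow_le_pow_left₀ (norm_nonneg _) h6 2
        _ ≤ 2 * Real.exp (2 * S3) ^ 2 * E ^ 2 + 2 * ε ^ 2 := by
            nlinarith [sq_nonneg (Real.exp (2 * S3) * E - ε)]
  have i1 : IntervalIntegrable (fun t : ℝ => 2 * Real.exp (2 * S3) ^ 2 *
      (‖cexp (∑ l ∈ Finset.range (JB D), zf D (fun _ => 1) (fun _ => 1) l t)‖ ^ 2 *
        ‖dp M c t‖ ^ 2)) volume V (2 * V) := by
    apply Continuous.intervalIntegrable
    fun_prop
  have i2 : IntervalIntegrable (fun t : ℝ => 2 * ε ^ 2 * ‖dp M c t‖ ^ 2) volume V (2 * V) := by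
    apply Continuous.intervalIntegrable
    fun_prop
  rw [intervalIntegral.integral_add i1 i2, intervalIntegral.integral_const_mul,
    intervalIntegral.integral_const_mul] at h4
  have h5 : V / 2 * N2 (Y * M) (cv (uY X Y) c) ≤
      2 * Real.exp (2 * S3) ^ 2 * (S * V) + 2 * ε ^ 2 * (2 * V * N2 M c) := by
    refine h2.trans (h4.trans (add_le_add ?_ ?_))
    · exact mul_le_mul_of_nonneg_left hV1 (by positivity)
    · exact mul_le_mul_of_nonneg_left h3 (by positivity)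
  have h6 : V / 2 * N2 (Y * M) (cv (uY X Y) c) ≤
      V / 2 * (4 * Real.exp (2 * S3) ^ 2 * S + 8 * ε ^ 2 * N2 M c) := by
    refine h5.trans (le_of_eq ?_)
    ring
  have h7 := le_of_mul_le_mul_left h6 (by positivity)
  linarith

theorem t_TSC : J_TSC := by
  intro hTS hEXP hd hMVL
  obtain ⟨θ, C₁, hθ, hθ4, hC₁, hTS⟩ := hTS
  obtain ⟨D₁, hD₁, hmert⟩ := Pool.Agent.Q178.UM.PR.mert_prod
  refine ⟨θ / 2, by linarith, by linarith, ?_⟩
  intro δ hδ hδ1
  obtain ⟨E, hE⟩ : ∃ E : ℝ, E = 4 * Real.exp (2 * S3) ^ 2 := ⟨_, rfl⟩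
  have hE0 : 0 < E := by
    rw [hE]
    positivity
  refine ⟨C₁ * (D₁ * E / δ + 1), by positivity, ?_⟩
  filter_upwards [hTS, eventually_ge_atTop (Real.exp (1 / δ)), eventually_ge_atTop 16] with
    T hTS hTe hT16 M c hM hc S hS
  have hT0 : 0 < T := by linarith
  have hT1 : 1 ≤ T := by linarith
  have hL : 1 / δ ≤ Real.log T := (Real.le_log_iff_exp_le hT0).mpr hTe
  have hL0 : 0 < Real.log T := lt_of_lt_of_le (by positivity) hL
  obtain ⟨D, hD⟩ : ∃ D : ℝ, D = δ * Real.log T := ⟨_, rfl⟩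
  have hD1 : 1 ≤ D := by
    rw [div_le_iff₀ hδ] at hL
    rw [hD]
    linarith
  have hTD : T ^ δ = Real.exp D := by
    rw [Real.rpow_def_of_pos hT0, hD, mul_comm]
  rw [← hD] at hS
  rw [hTD] at hc
  have hcM : ∀ n, M < n → c n = 0 := by
    intro n hn
    by_contra h
    have := (hc n h).2.1
    omega
  have hS0 : 0 ≤ S := by
    unfold MB at hS
    obtain ⟨V, hV1, hV2⟩ := (hS.and (eventually_ge_atTop (1 : ℝ))).exists
    have h1 : 0 ≤ ∫ t in V..(2 * V), ‖cexp (∑ l ∈ Finset.range (JB D),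
        zf D (fun _ => 1) (fun _ => 1) l t)‖ ^ 2 * ‖dp M c t‖ ^ 2 := by
      apply intervalIntegral.integral_nonneg (by linarith)
      intro t _
      positivity
    by_contra h
    push Not at h
    nlinarith
  have hN0 : 0 ≤ N2 M c := by
    unfold N2
    positivity
  rcases Nat.eq_zero_or_pos M with hM0 | hM1
  · -- trivial case
    have h1 : ∀ t : ℝ, ‖zt t‖ ^ 2 * ‖dp M c t‖ ^ 2 = 0 := by
      intro t
      have : dp M c t = 0 := by
        unfold dp
        rw [hM0]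
        simp
      rw [this]
      simp
    simp only [h1, intervalIntegral.integral_zero]
    positivity
  -- the coefficients
  have hcn : ∀ n, ‖c n‖ ≤ Real.sqrt (M * N2 M c) := by
    intro n
    by_cases h : c n = 0
    · rw [h, norm_zero]
      exact Real.sqrt_nonneg _
    · obtain ⟨h1, h2, -⟩ := hc n h
      apply Real.le_sqrt_of_sq_le
      have h3 : ‖c n‖ ^ 2 / (n : ℝ) ≤ N2 M c := by
        unfold N2
        exact Finset.single_le_sum (f := fun n : ℕ => ‖c n‖ ^ 2 / (n : ℝ)) (fun m _ => by positivity)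
          (Finset.mem_Icc.2 ⟨h1, h2⟩)
      have h4 : (0 : ℝ) < n := by exact_mod_cast h1
      rw [div_le_iff₀ h4] at h3
      have h5 : (n : ℝ) ≤ M := by exact_mod_cast h2
      calc ‖c n‖ ^ 2 ≤ N2 M c * n := h3
        _ ≤ N2 M c * M := mul_le_mul_of_nonneg_left h5 hN0
        _ = _ := mul_comm _ _
  have hMθ : (M : ℝ) ≤ T ^ θ := hM.trans (Real.rpow_le_rpow_of_exponent_le hT1 (by linarith))
  have h1 := hTS M hMθ c (Real.sqrt (M * N2 M c)) hcn
  rw [Real.sq_sqrt (by positivity)] at h1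
  -- the quadratic form
  have hsum := (hEXP (⌊Real.exp D⌋₊ + 1) M c hc).1
  have hexp1 : 1 ≤ Real.exp D := Real.one_le_exp (by linarith)
  have hfl : 1 ≤ ⌊Real.exp D⌋₊ := by
    rw [Nat.le_floor_iff (by positivity)]
    exact_mod_cast hexp1
  have hprod0 : 0 ≤ ∏ p ∈ (⌊Real.exp D⌋₊ + 1).primesBelow, (1 - 1 / (p : ℝ)) := by
    apply Finset.prod_nonneg
    intro p hp
    have hp2 := (Nat.prime_of_mem_primesBelow hp).two_le
    have : (1 : ℝ) ≤ p := by exact_mod_cast (by omega : 1 ≤ p)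
    rw [sub_nonneg, div_le_one (by positivity)]
    exact this
  have hQ : (QF M c).re ≤ (∏ p ∈ (⌊Real.exp D⌋₊ + 1).primesBelow, (1 - 1 / (p : ℝ))) * (E * S) := by
    refine hasSum_le_of_sum_le hsum fun F => ?_
    rw [← Finset.mul_sum]
    apply mul_le_mul_of_nonneg_left _ hprod0
    rw [hE]
    exact part hd hMVL D hD1 M hM1 c hcM S hS F
  have hlogX : D ≤ Real.log ((⌊Real.exp D⌋₊ + 1 : ℕ) : ℝ) := by
    rw [Real.le_log_iff_exp_le (by positivity)]
    push_cast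
    exact (Nat.lt_floor_add_one _).le
  have hpr : ∏ p ∈ (⌊Real.exp D⌋₊ + 1).primesBelow, (1 - 1 / (p : ℝ)) ≤ D₁ / D := by
    refine (hmert (⌊Real.exp D⌋₊ + 1) (by omega)).trans ?_
    apply div_le_div_of_nonneg_left (by linarith) (by linarith) hlogX
  have hQ2 : Real.log T * (QF M c).re ≤ D₁ * E / δ * S := by
    calc Real.log T * (QF M c).re ≤ Real.log T * (D₁ / D * (E * S)) := by
          apply mul_le_mul_of_nonneg_left _ hL0.le
          exact hQ.trans (mul_le_mul_of_nonneg_right hpr (by positivity))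
      _ = _ := by
          rw [hD]
          field_simp
  have hM2 : T ^ (-θ) * (M * N2 M c) ≤ T ^ (-(θ / 2)) * N2 M c := by
    rw [← mul_assoc]
    apply mul_le_mul_of_nonneg_right _ hN0
    calc T ^ (-θ) * M ≤ T ^ (-θ) * T ^ (θ / 2) := mul_le_mul_of_nonneg_left hM (by positivity)
      _ = T ^ (-(θ / 2)) := by
          rw [← Real.rpow_add hT0]
          congr 1
          ring
  have hfin : ∫ t in (T / 2)..(3 * T), ‖zt t‖ ^ 2 * ‖dp M c t‖ ^ 2 ≤
      C₁ * T * (Real.log T * (QF M c).re + T ^ (-θ) * (M * N2 M c)) := h1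
  refine hfin.trans ?_
  have h2 : 0 ≤ T ^ (-(θ / 2)) * N2 M c := by positivity
  have h3 : 0 ≤ D₁ * E / δ := by positivity
  calc C₁ * T * (Real.log T * (QF M c).re + T ^ (-θ) * (M * N2 M c)) ≤
        C₁ * T * (D₁ * E / δ * S + T ^ (-(θ / 2)) * N2 M c) := by
        apply mul_le_mul_of_nonneg_left (add_le_add hQ2 hM2) (by positivity)
    _ ≤ C₁ * T * ((D₁ * E / δ + 1) * (S + T ^ (-(θ / 2)) * N2 M c)) := by
        apply mul_le_mul_of_nonneg_left _ (by positivity)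
        nlinarith
    _ = _ := by ring

end

end Pool.Agent.Q210.UM8
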